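import Mathlib

set_option autoImplicit false

/-!
Zooms of a set in the cubes of the `b`-adic grids.
-/

namespace Pool.Agent.Q85.KZ

open Set

variable {d : ℕ}

/-- The zoom of `K` into the closed cube number `v` of the grid of side `b ^ (-m)`:
`(b ^ m K - v) ∩ [0,1]^d`. -/
def zoom (b m : ℕ) (v : Fin d → ℤ) (K : Set (Fin d → ℝ)) : Set (Fin d → ℝ) :=
  {y | (∀ i, 0 ≤ y i ∧ y i ≤ 1) ∧ (fun i => ((v i : ℝ) + y i) / (b:ℝ) ^ m) ∈ K}

/-- the zoom of a zoom -/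
def sub (b k : ℕ) (w : Fin d → ℤ) (Z : Set (Fin d → ℝ)) : Set (Fin d → ℝ) :=
  {y | (∀ i, 0 ≤ y i ∧ y i ≤ 1) ∧ (fun i => ((w i : ℝ) + y i) / (b:ℝ) ^ k) ∈ Z}

/-- the digits of length `k` -/
noncomputable def digits (d b k : ℕ) : Finset (Fin d → ℤ) := Fintype.piFinset fun _ => Finset.Ico 0 ((b:ℤ) ^ k)

theorem mem_digits {b k : ℕ} {w : Fin d → ℤ} :
    w ∈ digits d b k ↔ ∀ i, 0 ≤ w i ∧ w i < (b:ℤ) ^ k := by
  unfold digits
  simp [Fintype.mem_piFinset, Finset.mem_Ico]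

theorem zoom_add {b : ℕ} (hb : 2 ≤ b) (m k : ℕ) (v w : Fin d → ℤ) (hw : w ∈ digits d b k)
    (K : Set (Fin d → ℝ)) :
    zoom b (m + k) (fun i => (b:ℤ) ^ k * v i + w i) K = sub b k w (zoom b m v K) := by
  rw [mem_digits] at hw
  have hb0 : (0:ℝ) < b := by exact_mod_cast (by omega : 0 < b)
  have hbk : (0:ℝ) < (b:ℝ) ^ k := by positivity
  have hbm : (0:ℝ) < (b:ℝ) ^ m := by positivity
  ext y
  unfold zoom sub
  simp only [mem_ofPred_eq]
  have key : (fun i => (((v i : ℝ)) + ((w i : ℝ) + y i) / (b:ℝ) ^ k) / (b:ℝ) ^ m) =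
      fun i => ((((b:ℤ) ^ k * v i + w i : ℤ) : ℝ) + y i) / (b:ℝ) ^ (m + k) := by
    funext i
    push_cast
    rw [pow_add]
    field_simp
    ring
  constructor
  · rintro ⟨h1, h2⟩
    refine ⟨h1, ?_, ?_⟩
    · intro i
      have hw0 : (0:ℝ) ≤ w i := by exact_mod_cast (hw i).1
      have hw1 : (w i : ℝ) + 1 ≤ (b:ℝ) ^ k := by exact_mod_cast (hw i).2
      constructor
      · exact div_nonneg (add_nonneg hw0 (h1 i).1) hbk.le
      · rw [div_le_one hbk]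
        linarith [(h1 i).2]
    · rw [key]
      exact h2
  · rintro ⟨h1, _, h3⟩
    refine ⟨h1, ?_⟩
    rw [key] at h3
    exact h3

/-- the index of the cube that contains `x` -/
noncomputable def idx (b m : ℕ) (x : Fin d → ℝ) : Fin d → ℤ := fun i => ⌊(b:ℝ) ^ m * x i⌋

/-- the digits of `x` between the levels `m` and `m + k` -/
noncomputable def dig (b m k : ℕ) (x : Fin d → ℝ) : Fin d → ℤ :=
  fun i => idx b (m + k) x i - (b:ℤ) ^ k * idx b m x i

theorem dig_mem {b : ℕ} (hb : 2 ≤ b) (m k : ℕ) (x : Fin d → ℝ) : dig b m k x ∈ digits d b k := by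
  rw [mem_digits]
  intro i
  have hb0 : (0:ℝ) < b := by exact_mod_cast (by omega : 0 < b)
  have hbk : (0:ℝ) < (b:ℝ) ^ k := by positivity
  unfold dig idx
  have h1 : (b:ℝ) ^ (m + k) * x i = (((b:ℤ) ^ k * ⌊(b:ℝ) ^ m * x i⌋ : ℤ) : ℝ) +
      (b:ℝ) ^ k * Int.fract ((b:ℝ) ^ m * x i) := by
    push_cast
    rw [← mul_add, Int.floor_add_fract, pow_add]
    ring
  rw [h1, Int.floor_intCast_add, add_sub_cancel_left]
  constructor
  · apply Int.floor_nonneg.2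
    exact mul_nonneg hbk.le (Int.fract_nonneg _)
  · rw [Int.floor_lt]
    push_cast
    exact mul_lt_of_lt_one_right hbk (Int.fract_lt_one _)

theorem idx_add {b : ℕ} (m k : ℕ) (x : Fin d → ℝ) :
    idx b (m + k) x = fun i => (b:ℤ) ^ k * idx b m x i + dig b m k x i := by
  funext i
  unfold dig
  ring

theorem zoom_idx_add {b : ℕ} (hb : 2 ≤ b) (m k : ℕ) (x : Fin d → ℝ) (K : Set (Fin d → ℝ)) :
    zoom b (m + k) (idx b (m + k) x) K = sub b k (dig b m k x) (zoom b m (idx b m x) K) := by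
  rw [idx_add, zoom_add hb m k _ _ (dig_mem hb m k x)]

theorem zoom_nonempty {b : ℕ} (hb : 2 ≤ b) (m : ℕ) {x : Fin d → ℝ} {K : Set (Fin d → ℝ)}
    (hx : x ∈ K) : (zoom b m (idx b m x) K).Nonempty := by
  have hb0 : (0:ℝ) < b := by exact_mod_cast (by omega : 0 < b)
  have hbm : (0:ℝ) < (b:ℝ) ^ m := by positivity
  refine ⟨fun i => Int.fract ((b:ℝ) ^ m * x i), fun i => ⟨Int.fract_nonneg _, (Int.fract_lt_one _).le⟩,
    ?_⟩
  have : (fun i => (((idx b m x i : ℤ) : ℝ) + Int.fract ((b:ℝ) ^ m * x i)) / (b:ℝ) ^ m) = x := by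
    funext i
    unfold idx
    rw [Int.floor_add_fract]
    field_simp
  rw [this]
  exact hx

/-- If two points of a line with direction `e` have the same digits between the levels `m` and `m + k`,
then the multiple `b ^ m (t - s) e` is close to an integer point. -/
theorem close_of_dig {b : ℕ} (hb : 2 ≤ b) (m k : ℕ) (p e : Fin d → ℝ) (s t : ℝ)
    (h : dig b m k (fun i => p i + t * e i) = dig b m k (fun i => p i + s * e i)) (i : Fin d) :
    ∃ z : ℤ, |(b:ℝ) ^ m * (t - s) * e i - z| < ((b:ℝ) ^ k)⁻¹ := by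
  have hb0 : (0:ℝ) < b := by exact_mod_cast (by omega : 0 < b)
  have hbk : (0:ℝ) < (b:ℝ) ^ k := by positivity
  set X := fun i => p i + t * e i with hX
  set Y := fun i => p i + s * e i with hY
  refine ⟨idx b m X i - idx b m Y i, ?_⟩
  have h1 : idx b (m + k) X i - (b:ℤ) ^ k * idx b m X i =
      idx b (m + k) Y i - (b:ℤ) ^ k * idx b m Y i := congrFun h i
  have h2 : ((idx b (m + k) X i : ℤ) : ℝ) - (idx b (m + k) Y i : ℤ) =
      (b:ℝ) ^ k * ((idx b m X i : ℤ) - (idx b m Y i : ℤ)) := by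
    have : idx b (m + k) X i - idx b (m + k) Y i = (b:ℤ) ^ k * (idx b m X i - idx b m Y i) := by
      linarith
    exact_mod_cast this
  have e1 : ((idx b (m + k) X i : ℤ) : ℝ) ≤ (b:ℝ) ^ (m + k) * X i := Int.floor_le _
  have e2 : (b:ℝ) ^ (m + k) * X i < (idx b (m + k) X i : ℤ) + 1 := Int.lt_floor_add_one _
  have e3 : ((idx b (m + k) Y i : ℤ) : ℝ) ≤ (b:ℝ) ^ (m + k) * Y i := Int.floor_le _
  have e4 : (b:ℝ) ^ (m + k) * Y i < (idx b (m + k) Y i : ℤ) + 1 := Int.lt_floor_add_one _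
  have h3 : (b:ℝ) ^ (m + k) * X i - (b:ℝ) ^ (m + k) * Y i =
      (b:ℝ) ^ k * ((b:ℝ) ^ m * (t - s) * e i) := by
    rw [hX, hY, pow_add]
    ring
  have h4 : |(b:ℝ) ^ k * ((b:ℝ) ^ m * (t - s) * e i - ((idx b m X i : ℤ) - (idx b m Y i : ℤ) : ℝ))| < 1 := by
    rw [mul_sub, ← h3, ← h2, abs_lt]
    constructor <;> linarith
  rw [abs_mul, abs_of_pos hbk] at h4
  push_cast
  set a := |(b:ℝ) ^ m * (t - s) * e i - ((idx b m X i : ℝ) - (idx b m Y i : ℝ))| with ha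
  calc a = ((b:ℝ) ^ k)⁻¹ * ((b:ℝ) ^ k * a) := by field_simp
    _ < ((b:ℝ) ^ k)⁻¹ * 1 := mul_lt_mul_of_pos_left h4 (inv_pos.2 hbk)
    _ = ((b:ℝ) ^ k)⁻¹ := mul_one _

end Pool.Agent.Q85.KZ
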