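import Pool.Agent.Q85.KZ.A

set_option autoImplicit false

/-!
Return times of a line with a direction that is not well approximable.
-/

namespace Pool.Agent.Q85.KZ

open Set MeasureTheory

theorem sep_card (S : Finset ℤ) (H G : ℝ) (hH : 0 ≤ H) (hG : 0 < G) (hS : ∀ q ∈ S, |(q:ℝ)| ≤ H)
    (hsep : ∀ q ∈ S, ∀ q' ∈ S, q ≠ q' → G ≤ |(q:ℝ) - q'|) : (S.card : ℝ) * G ≤ 2 * H + G := by
  classical
  have h1 : volume (⋃ q ∈ S, Ico (q:ℝ) (q + G)) = ∑ q ∈ S, volume (Ico (q:ℝ) (q + G)) := by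
    apply measure_biUnion_finset
    · intro q hq q' hq' hne
      rw [Function.onFun, Set.disjoint_left]
      intro x hx hx'
      rw [mem_Ico] at hx hx'
      have := hsep q hq q' hq' hne
      rw [le_abs] at this
      rcases this with h | h <;> linarith [hx.1, hx.2, hx'.1, hx'.2]
    · intro q _
      exact measurableSet_Ico
  have h2 : (⋃ q ∈ S, Ico (q:ℝ) (q + G)) ⊆ Ico (-H) (H + G) := by
    intro x hx
    simp only [mem_iUnion] at hx
    obtain ⟨q, hq, hx⟩ := hx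
    have := abs_le.1 (hS q hq)
    exact ⟨by linarith [hx.1, this.1], by linarith [hx.2, this.2]⟩
  have h3 := measure_mono (μ := volume) h2
  rw [h1] at h3
  have h4 : ∑ q ∈ S, volume (Ico (q:ℝ) (q + G)) = ENNReal.ofReal ((S.card : ℝ) * G) := by
    rw [Finset.sum_congr rfl (fun q _ => by rw [Real.volume_Ico, add_sub_cancel_left]),
      Finset.sum_const, nsmul_eq_mul, ENNReal.ofReal_mul (Nat.cast_nonneg _), ENNReal.ofReal_natCast]
  rw [h4, Real.volume_Ico, ENNReal.ofReal_le_ofReal_iff (by linarith)] at h3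
  linarith

/-- `α` is not approximable to the order `κ`, with constant `c`. -/
def Dio {n : ℕ} (α : Fin n → ℝ) (κ c : ℝ) : Prop :=
  ∀ q : ℤ, q ≠ 0 → ∀ z : Fin n → ℤ, ∃ j, c * |(q:ℝ)| ^ (-κ) ≤ |(q:ℝ) * α j - z j|

/-- the direction `(1, α)` -/
def dir {n : ℕ} (α : Fin n → ℝ) : Fin (n + 1) → ℝ := Fin.cons 1 α

theorem return_time {n : ℕ} (α : Fin n → ℝ) {κ c M τ : ℝ} (hκ : 0 < κ) (hc : 0 < c)
    (hM : 1 ≤ M) (hαM : ∀ j, 1 + |α j| ≤ M) (hτ : 0 ≤ τ) (hα : Dio α κ c)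
    {b : ℕ} (hb : 2 ≤ b) (m k : ℕ) (hk : (k:ℝ) ≤ κ * m) (p : Fin (n + 1) → ℝ) (s : ℝ)
    (hs : s ∈ Icc 0 τ) :
    volume {t ∈ Icc (0:ℝ) τ | dig b m k (fun i => p i + t * dir α i) =
      dig b m k (fun i => p i + s * dir α i)} ≤
      ENNReal.ofReal (2 * (2 * (τ + 2) * (2 * M / c) ^ (κ⁻¹) + 1) * (((b:ℝ) ^ k)⁻¹) ^ (1 + κ⁻¹)) := by
  classical
  have hb0 : (0:ℝ) < b := by exact_mod_cast (by omega : 0 < b)
  have hb1 : (1:ℝ) ≤ b := by exact_mod_cast (by omega : 1 ≤ b)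
  set ρ : ℝ := ((b:ℝ) ^ k)⁻¹ with hρ
  have hρ0 : 0 < ρ := by positivity
  have hρ1 : ρ ≤ 1 := by
    rw [hρ]
    exact inv_le_one_of_one_le₀ (one_le_pow₀ hb1)
  set L : ℝ := (b:ℝ) ^ m with hL
  have hL0 : 0 < L := by positivity
  have hL1 : 1 ≤ L := one_le_pow₀ hb1
  set H : ℝ := L * τ + 2 with hH
  set Q : Finset ℤ := (Finset.Icc (-⌈L * τ + 1⌉) ⌈L * τ + 1⌉).filter
    (fun q => ∃ z : Fin n → ℤ, ∀ j, |(q:ℝ) * α j - z j| ≤ M * ρ) with hQ
  set G : ℝ := (c / (2 * (M * ρ))) ^ (κ⁻¹) with hG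
  have hG0 : 0 < G := by positivity
  have hQH : ∀ q ∈ Q, |(q:ℝ)| ≤ H := by
    intro q hq
    rw [hQ, Finset.mem_filter, Finset.mem_Icc] at hq
    have h1 : (⌈L * τ + 1⌉ : ℝ) < L * τ + 1 + 1 := Int.ceil_lt_add_one _
    have h2 : (q:ℝ) ≤ ⌈L * τ + 1⌉ := by exact_mod_cast hq.1.2
    have h3 : -(⌈L * τ + 1⌉ : ℝ) ≤ q := by exact_mod_cast hq.1.1
    rw [abs_le]
    constructor <;> linarith
  have hQsep : ∀ q ∈ Q, ∀ q' ∈ Q, q ≠ q' → G ≤ |(q:ℝ) - q'| := by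
    intro q hq q' hq' hne
    rw [hQ, Finset.mem_filter] at hq hq'
    obtain ⟨z, hz⟩ := hq.2
    obtain ⟨z', hz'⟩ := hq'.2
    obtain ⟨j, hj⟩ := hα (q - q') (sub_ne_zero.2 hne) (fun j => z j - z' j)
    have h1 : |((q - q' : ℤ) : ℝ) * α j - ((z j - z' j : ℤ) : ℝ)| ≤ 2 * (M * ρ) := by
      have : ((q - q' : ℤ) : ℝ) * α j - ((z j - z' j : ℤ) : ℝ) =
          ((q:ℝ) * α j - z j) - ((q':ℝ) * α j - z' j) := by
        push_cast
        ring
      rw [this]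
      have := abs_sub ((q:ℝ) * α j - z j) ((q':ℝ) * α j - z' j)
      linarith [hz j, hz' j]
    have h2 := hj.trans h1
    set g : ℝ := |((q - q' : ℤ) : ℝ)| with hg
    have hg0 : 0 < g := abs_pos.2 (by exact_mod_cast sub_ne_zero.2 hne)
    have h3 : c / (2 * (M * ρ)) ≤ g ^ κ := by
      rw [div_le_iff₀ (by positivity)]
      rw [Real.rpow_neg hg0.le] at h2
      have hgκ : 0 < g ^ κ := Real.rpow_pos_of_pos hg0 κ
      calc c = (c * (g ^ κ)⁻¹) * g ^ κ := by field_simp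
        _ ≤ (2 * (M * ρ)) * g ^ κ := mul_le_mul_of_nonneg_right h2 hgκ.le
        _ = g ^ κ * (2 * (M * ρ)) := mul_comm _ _
    have h4 : G ≤ (g ^ κ) ^ (κ⁻¹) := Real.rpow_le_rpow (by positivity) h3 (by positivity)
    rw [← Real.rpow_mul hg0.le, mul_inv_cancel₀ hκ.ne', Real.rpow_one] at h4
    rw [hg] at h4
    push_cast at h4
    exact h4
  have hcard := sep_card Q H G (by positivity) hG0 hQH hQsep
  -- the covering
  have hcov : {t ∈ Icc (0:ℝ) τ | dig b m k (fun i => p i + t * dir α i) =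
      dig b m k (fun i => p i + s * dir α i)} ⊆
      ⋃ q ∈ Q, Icc (s + ((q:ℝ) - ρ) / L) (s + ((q:ℝ) + ρ) / L) := by
    intro t ht
    obtain ⟨ht1, ht2⟩ := ht
    obtain ⟨q, hq⟩ := close_of_dig hb m k p (dir α) s t ht2 0
    have hd0 : dir α 0 = 1 := rfl
    rw [hd0, mul_one] at hq
    have hq' := abs_lt.1 hq
    have hts : |(b:ℝ) ^ m * (t - s)| ≤ L * τ := by
      rw [abs_mul, abs_of_pos hL0]
      apply mul_le_mul_of_nonneg_left _ hL0.le
      rw [abs_le]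
      constructor <;> linarith [ht1.1, ht1.2, hs.1, hs.2]
    have hqQ : q ∈ Q := by
      rw [hQ, Finset.mem_filter, Finset.mem_Icc]
      have h5 := abs_le.1 hts
      have h6 : (L * τ + 1 : ℝ) ≤ ⌈L * τ + 1⌉ := Int.le_ceil _
      refine ⟨⟨?_, ?_⟩, ?_⟩
      · have : (-(⌈L * τ + 1⌉ : ℝ)) ≤ q := by linarith [h5.1, hq'.2]
        exact_mod_cast this
      · have : (q:ℝ) ≤ ⌈L * τ + 1⌉ := by linarith [h5.2, hq'.1]
        exact_mod_cast this
      · have h7 : ∀ j : Fin n, ∃ z : ℤ, |(q:ℝ) * α j - z| ≤ M * ρ := by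
          intro j
          obtain ⟨z, hz⟩ := close_of_dig hb m k p (dir α) s t ht2 j.succ
          have hdj : dir α j.succ = α j := by simp [dir]
          rw [hdj] at hz
          refine ⟨z, ?_⟩
          have h8 : (q:ℝ) * α j - z = ((b:ℝ) ^ m * (t - s) * α j - z) -
              ((b:ℝ) ^ m * (t - s) - q) * α j := by ring
          rw [h8]
          calc |((b:ℝ) ^ m * (t - s) * α j - z) - ((b:ℝ) ^ m * (t - s) - q) * α j|
              ≤ |(b:ℝ) ^ m * (t - s) * α j - z| + |((b:ℝ) ^ m * (t - s) - q) * α j| := abs_sub _ _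
            _ ≤ ρ + ρ * |α j| := by
                rw [abs_mul]
                exact add_le_add hz.le (mul_le_mul_of_nonneg_right hq.le (abs_nonneg _))
            _ = (1 + |α j|) * ρ := by ring
            _ ≤ M * ρ := mul_le_mul_of_nonneg_right (hαM j) hρ0.le
        choose z hz using h7
        exact ⟨z, hz⟩
    refine mem_biUnion hqQ ?_
    rw [mem_Icc]
    constructor
    · have : ((q:ℝ) - ρ) / L ≤ t - s := by
        rw [div_le_iff₀ hL0]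
        nlinarith [hq'.1]
      linarith
    · have : t - s ≤ ((q:ℝ) + ρ) / L := by
        rw [le_div_iff₀ hL0]
        nlinarith [hq'.2]
      linarith
  have hvol : volume (⋃ q ∈ Q, Icc (s + ((q:ℝ) - ρ) / L) (s + ((q:ℝ) + ρ) / L)) ≤
      ENNReal.ofReal ((Q.card : ℝ) * (2 * ρ / L)) := by
    refine (measure_biUnion_finset_le _ _).trans (le_of_eq ?_)
    have h9 : ∀ q ∈ Q, volume (Icc (s + ((q:ℝ) - ρ) / L) (s + ((q:ℝ) + ρ) / L)) =
        ENNReal.ofReal (2 * ρ / L) := by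
      intro q _
      rw [Real.volume_Icc]
      congr 1
      ring
    rw [Finset.sum_congr rfl h9, Finset.sum_const, nsmul_eq_mul, ENNReal.ofReal_mul (Nat.cast_nonneg _),
      ENNReal.ofReal_natCast]
  refine (measure_mono hcov).trans (hvol.trans (ENNReal.ofReal_le_ofReal ?_))
  -- the size
  have hG' : G⁻¹ = (2 * M / c) ^ (κ⁻¹) * ρ ^ (κ⁻¹) := by
    rw [hG, ← Real.inv_rpow (by positivity), ← Real.mul_rpow (by positivity) hρ0.le]
    congr 1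
    field_simp
  have hLρ : 1 ≤ L * ρ ^ (κ⁻¹) := by
    have e1 : ρ ^ (κ⁻¹) = (b:ℝ) ^ (-((k:ℝ) * κ⁻¹)) := by
      rw [hρ, ← Real.rpow_natCast, ← Real.rpow_neg hb0.le, ← Real.rpow_mul hb0.le]
      congr 1
      ring
    rw [e1, hL, ← Real.rpow_natCast, ← Real.rpow_add hb0]
    apply Real.one_le_rpow hb1
    have : (k:ℝ) * κ⁻¹ ≤ m := by
      rw [← div_eq_mul_inv, div_le_iff₀ hκ]
      linarith
    linarith
  have hcard2 : (Q.card : ℝ) ≤ L * ρ ^ (κ⁻¹) * (2 * (τ + 2) * (2 * M / c) ^ (κ⁻¹) + 1) := by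
    have e1 : (Q.card : ℝ) ≤ 2 * H * G⁻¹ + 1 := by
      calc (Q.card : ℝ) = ((Q.card : ℝ) * G) * G⁻¹ := by field_simp
        _ ≤ (2 * H + G) * G⁻¹ := mul_le_mul_of_nonneg_right hcard (by positivity)
        _ = 2 * H * G⁻¹ + 1 := by field_simp
    have e2 : H ≤ L * (τ + 2) := by
      rw [hH]
      nlinarith
    have e3 : 2 * H * G⁻¹ ≤ 2 * (L * (τ + 2)) * G⁻¹ :=
      mul_le_mul_of_nonneg_right (by linarith) (by positivity)
    calc (Q.card : ℝ) ≤ 2 * (L * (τ + 2)) * G⁻¹ + 1 := by linarith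
      _ ≤ 2 * (L * (τ + 2)) * ((2 * M / c) ^ (κ⁻¹) * ρ ^ (κ⁻¹)) + L * ρ ^ (κ⁻¹) := by
          rw [hG']
          linarith
      _ = L * ρ ^ (κ⁻¹) * (2 * (τ + 2) * (2 * M / c) ^ (κ⁻¹) + 1) := by ring
  calc (Q.card : ℝ) * (2 * ρ / L)
      ≤ (L * ρ ^ (κ⁻¹) * (2 * (τ + 2) * (2 * M / c) ^ (κ⁻¹) + 1)) * (2 * ρ / L) :=
        mul_le_mul_of_nonneg_right hcard2 (by positivity)
    _ = 2 * (2 * (τ + 2) * (2 * M / c) ^ (κ⁻¹) + 1) * (ρ * ρ ^ (κ⁻¹)) := by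
        field_simp
    _ = 2 * (2 * (τ + 2) * (2 * M / c) ^ (κ⁻¹) + 1) * ρ ^ (1 + κ⁻¹) := by
        rw [Real.rpow_add hρ0, Real.rpow_one]

end Pool.Agent.Q85.KZ
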