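import Pool.Agent.Q85.KZ.B

set_option autoImplicit false

/-!
A chain of popular types.
-/

namespace Pool.Agent.Q85.KZ

open Set MeasureTheory

variable {d : ℕ}

theorem exists_chain {X : Type*} (P : ℕ → X → Prop) (R : ℕ → X → X → Prop) (h0 : ∃ x, P 0 x)
    (hs : ∀ i x, P i x → ∃ y, P (i + 1) y ∧ R i x y) :
    ∃ f : ℕ → X, ∀ i, P i (f i) ∧ R i (f i) (f (i + 1)) := by
  classical
  obtain ⟨x0, hx0⟩ := h0
  let F : ∀ i, {x // P i x} := fun i => Nat.rec (motive := fun i => {x // P i x}) ⟨x0, hx0⟩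
    (fun i x => ⟨Classical.choose (hs i x.1 x.2), (Classical.choose_spec (hs i x.1 x.2)).1⟩) i
  refine ⟨fun i => (F i).1, fun i => ⟨(F i).2, ?_⟩⟩
  exact (Classical.choose_spec (hs i (F i).1 (F i).2)).2

open Classical in
/-- the sub-cubes of a cube of type `Z` that have type `Z'` -/
noncomputable def W (d b k : ℕ) (Z Z' : Set (Fin d → ℝ)) : Finset (Fin d → ℤ) :=
  (digits d b k).filter (fun w => sub b k w Z = Z')

theorem measurable_type (b m : ℕ) (K Z : Set (Fin d → ℝ)) (p e : Fin d → ℝ) :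
    MeasurableSet {t : ℝ | zoom b m (idx b m (fun i => p i + t * e i)) K = Z} := by
  have h1 : Measurable (fun t : ℝ => idx b m (fun i => p i + t * e i)) := by
    apply measurable_pi_iff.2
    intro i
    unfold idx
    apply Int.measurable_floor.comp
    fun_prop
  have h2 : MeasurableSet {v : Fin d → ℤ | zoom b m v K = Z} := (Set.to_countable _).measurableSet
  exact h1 h2

theorem measurable_dig (b m k : ℕ) (w : Fin d → ℤ) (p e : Fin d → ℝ) :
    MeasurableSet {t : ℝ | dig b m k (fun i => p i + t * e i) = w} := by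
  have h1 : Measurable (fun t : ℝ => dig b m k (fun i => p i + t * e i)) := by
    apply measurable_pi_iff.2
    intro i
    have e1 : Measurable fun t : ℝ => idx b (m + k) (fun i => p i + t * e i) i := by
      unfold idx
      apply Int.measurable_floor.comp
      fun_prop
    have e2 : Measurable fun t : ℝ => idx b m (fun i => p i + t * e i) i := by
      unfold idx
      apply Int.measurable_floor.comp
      fun_prop
    exact e1.sub (e2.const_mul _)
  exact h1 (measurableSet_singleton w)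

/-- one popular type -/
theorem popular {T : Set ℝ} {θ N : ℝ} (hN : 0 < N) (hθ : 0 < θ) (hT : ENNReal.ofReal θ ≤ volume T)
    {b m : ℕ} {K : Set (Fin d → ℝ)} (p e : Fin d → ℝ) (hTfin : volume T ≠ ⊤)
    (S : Finset (Set (Fin d → ℝ))) (hS : (S.card : ℝ) ≤ N) (hSv : ∀ v, zoom b m v K ∈ S) :
    ∃ Z, ENNReal.ofReal (θ / N) ≤
      volume {t ∈ T | zoom b m (idx b m (fun i => p i + t * e i)) K = Z} := by
  classical
  by_contra hcon
  push Not at hcon
  have hne : S.Nonempty := ⟨_, hSv (fun _ => 0)⟩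
  have h1 : volume T ≤ ∑ Z ∈ S, volume {t ∈ T | zoom b m (idx b m (fun i => p i + t * e i)) K = Z} := by
    have h2 : T ⊆ ⋃ Z ∈ S, {t ∈ T | zoom b m (idx b m (fun i => p i + t * e i)) K = Z} := by
      intro t ht
      exact mem_biUnion (hSv _) ⟨ht, rfl⟩
    exact (measure_mono h2).trans (measure_biUnion_finset_le _ _)
  have h3 := ENNReal.sum_lt_sum_of_nonempty hne (fun Z _ => hcon Z)
  rw [Finset.sum_const, nsmul_eq_mul] at h3
  have h4 : (S.card : ENNReal) * ENNReal.ofReal (θ / N) ≤ ENNReal.ofReal θ := by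
    rw [← ENNReal.ofReal_natCast, ← ENNReal.ofReal_mul (Nat.cast_nonneg _)]
    apply ENNReal.ofReal_le_ofReal
    calc (S.card : ℝ) * (θ / N) ≤ N * (θ / N) := mul_le_mul_of_nonneg_right hS (by positivity)
      _ = θ := by field_simp
  exact absurd (lt_of_le_of_lt (hT.trans h1) h3) (not_lt.2 h4)

/-- many sub-cubes of the popular type -/
theorem many {T : Set ℝ} {θ R τ : ℝ} (hR : 0 ≤ R) (hT : ENNReal.ofReal θ ≤ volume T)
    (hTτ : T ⊆ Icc 0 τ)
    {b m k : ℕ} (hb : 2 ≤ b) {K Z Z' : Set (Fin d → ℝ)} (p e : Fin d → ℝ)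
    (h1 : ∀ t ∈ T, zoom b m (idx b m (fun i => p i + t * e i)) K = Z)
    (h2 : ∀ t ∈ T, zoom b (m + k) (idx b (m + k) (fun i => p i + t * e i)) K = Z')
    (hret : ∀ s ∈ Icc (0:ℝ) τ, volume {t ∈ Icc (0:ℝ) τ | dig b m k (fun i => p i + t * e i) =
      dig b m k (fun i => p i + s * e i)} ≤ ENNReal.ofReal R) :
    θ ≤ (W d b k Z Z').card * R := by
  classical
  have h3 : T ⊆ ⋃ w ∈ W d b k Z Z', {t ∈ T | dig b m k (fun i => p i + t * e i) = w} := by
    intro t ht
    have h4 := zoom_idx_add hb m k (fun i => p i + t * e i) K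
    rw [h1 t ht, h2 t ht] at h4
    refine mem_biUnion (x := dig b m k (fun i => p i + t * e i)) ?_ ⟨ht, rfl⟩
    show _ ∈ W d b k Z Z'
    unfold W
    rw [Finset.mem_filter]
    exact ⟨dig_mem hb m k _, h4.symm⟩
  have h5 : ∀ w ∈ W d b k Z Z', volume {t ∈ T | dig b m k (fun i => p i + t * e i) = w} ≤
      ENNReal.ofReal R := by
    intro w _
    rcases Set.eq_empty_or_nonempty {t ∈ T | dig b m k (fun i => p i + t * e i) = w} with h6 | h6
    · rw [h6, measure_empty]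
      exact zero_le
    · obtain ⟨s, hs1, hs2⟩ := h6
      refine (measure_mono ?_).trans (hret s (hTτ hs1))
      intro t ht
      exact ⟨hTτ ht.1, ht.2.trans hs2.symm⟩
  have h7 : ENNReal.ofReal θ ≤ ENNReal.ofReal ((W d b k Z Z').card * R) := by
    calc ENNReal.ofReal θ ≤ volume T := hT
      _ ≤ ∑ w ∈ W d b k Z Z', volume {t ∈ T | dig b m k (fun i => p i + t * e i) = w} :=
          (measure_mono h3).trans (measure_biUnion_finset_le _ _)
      _ ≤ ∑ w ∈ W d b k Z Z', ENNReal.ofReal R := Finset.sum_le_sum h5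
      _ = ENNReal.ofReal ((W d b k Z Z').card * R) := by
          rw [Finset.sum_const, nsmul_eq_mul, ENNReal.ofReal_mul (Nat.cast_nonneg _),
            ENNReal.ofReal_natCast]
  exact (ENNReal.ofReal_le_ofReal_iff (by positivity)).1 h7

theorem chain {b : ℕ} (hb : 2 ≤ b) {K : Set (Fin d → ℝ)} {p e : Fin d → ℝ} {τ : ℝ} (hτ : 0 < τ)
    (hseg : ∀ t ∈ Icc (0:ℝ) τ, (fun i => p i + t * e i) ∈ K) (m k : ℕ → ℕ)
    (hmk : ∀ i, m (i + 1) = m i + k i) (N R : ℕ → ℝ) (hN : ∀ i, 0 < N i) (hR : ∀ i, 0 ≤ R i)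
    (hS : ∀ i, ∃ S : Finset (Set (Fin d → ℝ)), (S.card : ℝ) ≤ N i ∧ ∀ v, zoom b (m i) v K ∈ S)
    (hret : ∀ i, ∀ s ∈ Icc (0:ℝ) τ, volume {t ∈ Icc (0:ℝ) τ |
      dig b (m i) (k i) (fun i => p i + t * e i) = dig b (m i) (k i) (fun i => p i + s * e i)} ≤
      ENNReal.ofReal (R i)) :
    ∃ v0 : Fin d → ℤ, ∃ Z : ℕ → Set (Fin d → ℝ), (∀ i, (Z i).Nonempty) ∧
      zoom b (m 0) v0 K = Z 0 ∧
      ∀ i, τ * ∏ j ∈ Finset.range (i + 2), (N j)⁻¹ ≤ (W d b (k i) (Z i) (Z (i + 1))).card * R i := by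
  classical
  set θ : ℕ → ℝ := fun i => τ * ∏ j ∈ Finset.range (i + 1), (N j)⁻¹ with hθ
  have hθ0 : ∀ i, 0 < θ i := fun i => mul_pos hτ (Finset.prod_pos fun j _ => inv_pos.2 (hN j))
  have hθs : ∀ i, θ (i + 1) = θ i / N (i + 1) := by
    intro i
    simp only [hθ]
    rw [Finset.prod_range_succ, div_eq_mul_inv, mul_assoc]
  set P : ℕ → Set (Fin d → ℝ) × Set ℝ → Prop := fun i X => MeasurableSet X.2 ∧ X.2 ⊆ Icc 0 τ ∧
    ENNReal.ofReal (θ i) ≤ volume X.2 ∧
      ∀ t ∈ X.2, zoom b (m i) (idx b (m i) (fun i => p i + t * e i)) K = X.1 with hP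
  have hfin : ∀ T : Set ℝ, T ⊆ Icc 0 τ → volume T ≠ ⊤ := fun T hT =>
    ((measure_mono hT).trans_lt measure_Icc_lt_top).ne
  obtain ⟨f, hf⟩ := exists_chain P (fun i X Y => θ (i + 1) ≤ (W d b (k i) X.1 Y.1).card * R i)
    (by
      obtain ⟨S, hS1, hS2⟩ := hS 0
      have h1 : ENNReal.ofReal τ ≤ volume (Icc (0:ℝ) τ) := by rw [Real.volume_Icc, sub_zero]
      obtain ⟨Z, hZ⟩ := popular (hN 0) hτ h1 p e (hfin _ Subset.rfl) S hS1 hS2
      refine ⟨(Z, {t ∈ Icc (0:ℝ) τ | zoom b (m 0) (idx b (m 0) (fun i => p i + t * e i)) K = Z}),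
        ?_, ?_, ?_, ?_⟩
      · exact measurableSet_Icc.inter (measurable_type b (m 0) K Z p e)
      · exact fun t ht => ht.1
      · have : θ 0 = τ / N 0 := by
          simp [hθ, div_eq_mul_inv]
        rw [this]
        exact hZ
      · exact fun t ht => ht.2)
    (by
      rintro i ⟨Z, T⟩ ⟨hT1, hT2, hT3, hT4⟩
      simp only at hT1 hT2 hT3 hT4
      obtain ⟨S, hS1, hS2⟩ := hS (i + 1)
      obtain ⟨Z', hZ'⟩ := popular (hN (i + 1)) (hθ0 i) hT3 p e (hfin _ hT2) S hS1 hS2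
      rw [← hθs] at hZ'
      set T' := {t ∈ T | zoom b (m (i + 1)) (idx b (m (i + 1)) (fun i => p i + t * e i)) K = Z'}
        with hT'
      refine ⟨(Z', T'), ⟨?_, ?_, hZ', ?_⟩, ?_⟩
      · exact hT1.inter (measurable_type b (m (i + 1)) K Z' p e)
      · exact fun t ht => hT2 ht.1
      · exact fun t ht => ht.2
      · simp only
        refine many (hR i) hZ' (fun t ht => hT2 ht.1) hb p e (m := m i) (fun t ht => hT4 t ht.1) ?_
          (hret i)
        intro t ht
        have := ht.2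
        rw [hmk i] at this
        exact this)
  have hne : ∀ i, ((f i).2).Nonempty := by
    intro i
    by_contra hcon
    rw [Set.not_nonempty_iff_eq_empty] at hcon
    have h1 := (hf i).1.2.2.1
    rw [hcon, measure_empty] at h1
    have h2 : 0 < ENNReal.ofReal (θ i) := ENNReal.ofReal_pos.2 (hθ0 i)
    exact absurd h1 (not_le.2 h2)
  obtain ⟨t0, ht0⟩ := hne 0
  refine ⟨idx b (m 0) (fun i => p i + t0 * e i), fun i => (f i).1, ?_, ?_, ?_⟩
  · intro i
    obtain ⟨t, ht⟩ := hne i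
    have h1 := (hf i).1.2.2.2 t ht
    simp only
    rw [← h1]
    exact zoom_nonempty hb (m i) (hseg t ((hf i).1.2.1 ht))
  · exact (hf 0).1.2.2.2 t0 ht0
  · intro i
    exact (hf i).2

end Pool.Agent.Q85.KZ
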