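import Pool.Agent.Q85.KZ.C

set_option autoImplicit false

/-!
A Cantor set in `K` given by a chain of types, and its dimension.
-/

namespace Pool.Agent.Q85.KZ

open Set MeasureTheory Filter
open scoped Topology ENNReal

variable {d : ℕ}

section Cantor

variable (b : ℕ) (k : ℕ → ℕ) (v0 : Fin d → ℤ) (Z : ℕ → Set (Fin d → ℝ))

/-- the position after `i` steps -/
def pos : ℕ → ((i : ℕ) → ↥(W d b (k i) (Z i) (Z (i + 1)))) → Fin d → ℤ
  | 0, _ => v0
  | i + 1, ω => fun j => (b:ℤ) ^ (k i) * pos i ω j + (ω i).1 j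

theorem measurable_pos (i : ℕ) : Measurable (pos b k v0 Z i) := by
  induction i with
  | zero => exact measurable_const
  | succ i ih =>
    apply measurable_pi_iff.2
    intro j
    have h1 : Measurable fun ω : ((i : ℕ) → ↥(W d b (k i) (Z i) (Z (i + 1)))) => (ω i).1 :=
      measurable_subtype_coe.comp (measurable_pi_apply i)
    exact ((measurable_pi_iff.1 ih j).const_mul _).add (measurable_pi_iff.1 h1 j)

theorem digit_mem {i : ℕ} (w : ↥(W d b (k i) (Z i) (Z (i + 1)))) : w.1 ∈ digits d b (k i) := by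
  classical
  have := w.2
  unfold W at this
  exact (Finset.mem_filter.1 this).1

theorem digit_sub {i : ℕ} (w : ↥(W d b (k i) (Z i) (Z (i + 1)))) :
    sub b (k i) w.1 (Z i) = Z (i + 1) := by
  classical
  have := w.2
  unfold W at this
  exact (Finset.mem_filter.1 this).2

theorem zoom_pos {K : Set (Fin d → ℝ)} (hb : 2 ≤ b) (m : ℕ → ℕ) (hmk : ∀ i, m (i + 1) = m i + k i)
    (h0 : zoom b (m 0) v0 K = Z 0) (ω : (i : ℕ) → ↥(W d b (k i) (Z i) (Z (i + 1)))) (i : ℕ) :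
    zoom b (m i) (pos b k v0 Z i ω) K = Z i := by
  induction i with
  | zero => exact h0
  | succ i ih =>
    rw [hmk i]
    show zoom b (m i + k i) (fun j => (b:ℤ) ^ (k i) * pos b k v0 Z i ω j + (ω i).1 j) K = _
    rw [zoom_add hb _ _ _ _ (digit_mem b k Z (ω i)), ih]
    exact digit_sub b k Z (ω i)

theorem pos_inj (ω ω' : (i : ℕ) → ↥(W d b (k i) (Z i) (Z (i + 1)))) (i : ℕ)
    (h : pos b k v0 Z i ω = pos b k v0 Z i ω') : ∀ j < i, ω j = ω' j := by
  induction i with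
  | zero => intro j hj; omega
  | succ i ih =>
    have hd := mem_digits.1 (digit_mem b k Z (ω i))
    have hd' := mem_digits.1 (digit_mem b k Z (ω' i))
    have h1 : ∀ l, pos b k v0 Z i ω l = pos b k v0 Z i ω' l ∧ (ω i).1 l = (ω' i).1 l := by
      intro l
      have h2 : (b:ℤ) ^ (k i) * pos b k v0 Z i ω l + (ω i).1 l =
          (b:ℤ) ^ (k i) * pos b k v0 Z i ω' l + (ω' i).1 l := congrFun h l
      have h3 := hd l
      have h4 := hd' l
      set B := (b:ℤ) ^ (k i) with hB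
      set P := pos b k v0 Z i ω l
      set P' := pos b k v0 Z i ω' l
      have hB0 : 0 < B := by linarith [h3.1, h3.2]
      have h5 : P = P' := by
        have h6 : (B * P + (ω i).1 l) / B = P := by
          rw [add_comm, Int.add_mul_ediv_left _ _ hB0.ne', Int.ediv_eq_zero_of_lt h3.1 h3.2, zero_add]
        have h7 : (B * P' + (ω' i).1 l) / B = P' := by
          rw [add_comm, Int.add_mul_ediv_left _ _ hB0.ne', Int.ediv_eq_zero_of_lt h4.1 h4.2, zero_add]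
        rw [← h6, ← h7, h2]
      refine ⟨h5, ?_⟩
      rw [h5] at h2
      linarith
    intro j hj
    rcases Nat.lt_succ_iff_lt_or_eq.1 hj with h2 | h2
    · exact ih (funext fun l => (h1 l).1) j h2
    · rw [h2]
      exact Subtype.ext (funext fun l => (h1 l).2)

/-- the corner of the cube after `i` steps -/
noncomputable def cor (m : ℕ → ℕ) (i : ℕ) (ω : (i : ℕ) → ↥(W d b (k i) (Z i) (Z (i + 1))))
    (j : Fin d) : ℝ := (pos b k v0 Z i ω j : ℝ) / (b:ℝ) ^ (m i)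

theorem cor_step (hb : 2 ≤ b) (m : ℕ → ℕ) (hmk : ∀ i, m (i + 1) = m i + k i)
    (ω : (i : ℕ) → ↥(W d b (k i) (Z i) (Z (i + 1)))) (i : ℕ) (j : Fin d) :
    cor b k v0 Z m i ω j ≤ cor b k v0 Z m (i + 1) ω j ∧
      cor b k v0 Z m (i + 1) ω j + ((b:ℝ) ^ m (i + 1))⁻¹ ≤ cor b k v0 Z m i ω j + ((b:ℝ) ^ m i)⁻¹ := by
  have hb0 : (0:ℝ) < b := by exact_mod_cast (by omega : 0 < b)
  have hbk : (0:ℝ) < (b:ℝ) ^ (k i) := by positivity
  have hbm : (0:ℝ) < (b:ℝ) ^ (m i) := by positivity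
  have hd := (mem_digits.1 (digit_mem b k Z (ω i))) j
  have h1 : (0:ℝ) ≤ ((ω i).1 j : ℝ) := by exact_mod_cast hd.1
  have h2 : ((ω i).1 j : ℝ) + 1 ≤ (b:ℝ) ^ (k i) := by exact_mod_cast hd.2
  have h3 : cor b k v0 Z m (i + 1) ω j = cor b k v0 Z m i ω j +
      ((ω i).1 j : ℝ) / ((b:ℝ) ^ (m i) * (b:ℝ) ^ (k i)) := by
    unfold cor
    rw [hmk i, pow_add]
    simp only [pos]
    push_cast
    field_simp
  rw [h3, hmk i, pow_add]
  constructor
  · have : 0 ≤ ((ω i).1 j : ℝ) / ((b:ℝ) ^ (m i) * (b:ℝ) ^ (k i)) := by positivity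
    linarith
  · have : ((ω i).1 j : ℝ) / ((b:ℝ) ^ (m i) * (b:ℝ) ^ (k i)) +
        ((b:ℝ) ^ (m i) * (b:ℝ) ^ (k i))⁻¹ ≤ ((b:ℝ) ^ (m i))⁻¹ := by
      rw [← one_div ((b:ℝ) ^ (m i) * (b:ℝ) ^ (k i)), ← add_div, div_le_iff₀ (by positivity)]
      calc ((ω i).1 j : ℝ) + 1 ≤ (b:ℝ) ^ (k i) := h2
        _ = ((b:ℝ) ^ (m i))⁻¹ * ((b:ℝ) ^ (m i) * (b:ℝ) ^ (k i)) := by field_simp
    linarith

theorem cor_le (hb : 2 ≤ b) (m : ℕ → ℕ) (hmk : ∀ i, m (i + 1) = m i + k i)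
    (ω : (i : ℕ) → ↥(W d b (k i) (Z i) (Z (i + 1)))) (i l : ℕ) (hil : i ≤ l) (j : Fin d) :
    cor b k v0 Z m i ω j ≤ cor b k v0 Z m l ω j ∧
      cor b k v0 Z m l ω j + ((b:ℝ) ^ m l)⁻¹ ≤ cor b k v0 Z m i ω j + ((b:ℝ) ^ m i)⁻¹ := by
  induction l, hil using Nat.le_induction with
  | base => exact ⟨le_rfl, le_rfl⟩
  | succ l hl ih =>
    have h := cor_step b k v0 Z hb m hmk ω l j
    exact ⟨ih.1.trans h.1, h.2.trans ih.2⟩

/-- the limit point -/
noncomputable def lim (m : ℕ → ℕ) (ω : (i : ℕ) → ↥(W d b (k i) (Z i) (Z (i + 1)))) (j : Fin d) : ℝ :=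
  ⨆ i, cor b k v0 Z m i ω j

theorem lim_bd (hb : 2 ≤ b) (m : ℕ → ℕ) (hmk : ∀ i, m (i + 1) = m i + k i)
    (ω : (i : ℕ) → ↥(W d b (k i) (Z i) (Z (i + 1)))) (i : ℕ) (j : Fin d) :
    cor b k v0 Z m i ω j ≤ lim b k v0 Z m ω j ∧
      lim b k v0 Z m ω j ≤ cor b k v0 Z m i ω j + ((b:ℝ) ^ m i)⁻¹ := by
  have hb0 : (0:ℝ) < b := by exact_mod_cast (by omega : 0 < b)
  have hub : ∀ l, cor b k v0 Z m l ω j ≤ cor b k v0 Z m i ω j + ((b:ℝ) ^ m i)⁻¹ := by
    intro l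
    have hpos : 0 ≤ ((b:ℝ) ^ m l)⁻¹ := by positivity
    rcases le_total i l with h | h
    · have := (cor_le b k v0 Z hb m hmk ω i l h j).2
      linarith
    · have h1 := (cor_le b k v0 Z hb m hmk ω l i h j).1
      have : 0 ≤ ((b:ℝ) ^ m i)⁻¹ := by positivity
      linarith
  constructor
  · apply le_ciSup (f := fun i => cor b k v0 Z m i ω j)
    refine ⟨cor b k v0 Z m i ω j + ((b:ℝ) ^ m i)⁻¹, ?_⟩
    rintro _ ⟨l, rfl⟩
    exact hub l
  · exact ciSup_le hub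

theorem tendsto_m (m : ℕ → ℕ) (hmk : ∀ i, m (i + 1) = m i + k i) (hk : ∀ i, 1 ≤ k i) (hb : 2 ≤ b) :
    Tendsto (fun i => ((b:ℝ) ^ m i)⁻¹) atTop (𝓝 0) := by
  have h1 : ∀ i, i ≤ m i := by
    intro i
    induction i with
    | zero => exact Nat.zero_le _
    | succ i ih =>
      rw [hmk i]
      have := hk i
      omega
  have hb1 : (1:ℝ) < b := by exact_mod_cast (by omega : 1 < b)
  apply Tendsto.inv_tendsto_atTop
  apply tendsto_atTop_mono (f := fun i => (b:ℝ) ^ i)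
  · intro i
    exact pow_le_pow_right₀ hb1.le (h1 i)
  · exact tendsto_pow_atTop_atTop_of_one_lt hb1

theorem tendsto_cor (hb : 2 ≤ b) (m : ℕ → ℕ) (hmk : ∀ i, m (i + 1) = m i + k i) (hk : ∀ i, 1 ≤ k i)
    (ω : (i : ℕ) → ↥(W d b (k i) (Z i) (Z (i + 1)))) :
    Tendsto (fun i => cor b k v0 Z m i ω) atTop (𝓝 (lim b k v0 Z m ω)) := by
  rw [tendsto_pi_nhds]
  intro j
  have h1 := tendsto_m b k m hmk hk hb
  have h2 : Tendsto (fun i => lim b k v0 Z m ω j - ((b:ℝ) ^ m i)⁻¹) atTop (𝓝 (lim b k v0 Z m ω j)) := by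
    simpa using tendsto_const_nhds.sub h1
  refine tendsto_of_tendsto_of_tendsto_of_le_of_le h2 tendsto_const_nhds ?_ ?_
  · intro i
    have := (lim_bd b k v0 Z hb m hmk ω i j).2
    simp only
    linarith
  · intro i
    exact (lim_bd b k v0 Z hb m hmk ω i j).1

theorem measurable_lim (hb : 2 ≤ b) (m : ℕ → ℕ) (hmk : ∀ i, m (i + 1) = m i + k i)
    (hk : ∀ i, 1 ≤ k i) : Measurable (lim b k v0 Z m) := by
  apply measurable_of_tendsto_metrizable (f := fun i ω => cor b k v0 Z m i ω)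
  · intro i
    apply measurable_pi_iff.2
    intro j
    unfold cor
    have h1 := measurable_pi_iff.1 (measurable_pos b k v0 Z i) j
    have h2 : Measurable fun z : ℤ => (z:ℝ) := measurable_from_top
    exact (h2.comp h1).div_const _
  · rw [tendsto_pi_nhds]
    intro ω
    exact tendsto_cor b k v0 Z hb m hmk hk ω

theorem lim_mem {K : Set (Fin d → ℝ)} (hK : IsClosed K) (hb : 2 ≤ b) (m : ℕ → ℕ)
    (hmk : ∀ i, m (i + 1) = m i + k i) (hk : ∀ i, 1 ≤ k i) (h0 : zoom b (m 0) v0 K = Z 0)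
    (hZ : ∀ i, (Z i).Nonempty) (ω : (i : ℕ) → ↥(W d b (k i) (Z i) (Z (i + 1)))) :
    lim b k v0 Z m ω ∈ K := by
  have hb0 : (0:ℝ) < b := by exact_mod_cast (by omega : 0 < b)
  have h1 : ∀ i, ∃ y : Fin d → ℝ, (∀ j, 0 ≤ y j ∧ y j ≤ 1) ∧
      (fun j => ((pos b k v0 Z i ω j : ℝ) + y j) / (b:ℝ) ^ (m i)) ∈ K := by
    intro i
    obtain ⟨y, hy⟩ := hZ i
    rw [← zoom_pos b k v0 Z hb m hmk h0 ω i] at hy
    exact ⟨y, hy.1, hy.2⟩
  choose y hy1 hy2 using h1
  refine hK.mem_of_tendsto (b := atTop) (f := fun i => fun j =>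
    ((pos b k v0 Z i ω j : ℝ) + y i j) / (b:ℝ) ^ (m i)) ?_ (Eventually.of_forall hy2)
  rw [tendsto_pi_nhds]
  intro j
  have h2 := tendsto_pi_nhds.1 (tendsto_cor b k v0 Z hb m hmk hk ω) j
  have h3 := tendsto_m b k m hmk hk hb
  have h4 : Tendsto (fun i => cor b k v0 Z m i ω j + ((b:ℝ) ^ m i)⁻¹) atTop
      (𝓝 (lim b k v0 Z m ω j)) := by
    simpa using h2.add h3
  refine tendsto_of_tendsto_of_tendsto_of_le_of_le h2 h4 ?_ ?_
  · intro i
    simp only
    unfold cor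
    apply div_le_div_of_nonneg_right _ (by positivity)
    linarith [(hy1 i j).1]
  · intro i
    simp only
    unfold cor
    rw [add_div]
    have : y i j / (b:ℝ) ^ (m i) ≤ ((b:ℝ) ^ (m i))⁻¹ := by
      rw [← one_div]
      exact div_le_div_of_nonneg_right (hy1 i j).2 (by positivity)
    linarith

/-- the uniform measure on the digits -/
noncomputable def prob (i : ℕ) : Measure ↥(W d b (k i) (Z i) (Z (i + 1))) :=
  ProbabilityTheory.uniformOn Set.univ

theorem prob_isProb (hW : ∀ i, (W d b (k i) (Z i) (Z (i + 1))).Nonempty) (i : ℕ) :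
    IsProbabilityMeasure (prob b k Z i) := by
  haveI : Nonempty ↥(W d b (k i) (Z i) (Z (i + 1))) := (hW i).to_subtype
  exact ProbabilityTheory.uniformOn_isProbabilityMeasure Set.finite_univ Set.univ_nonempty

theorem prob_singleton (i : ℕ) (w : ↥(W d b (k i) (Z i) (Z (i + 1)))) :
    prob b k Z i {w} = ((W d b (k i) (Z i) (Z (i + 1))).card : ℝ≥0∞)⁻¹ := by
  unfold prob
  rw [ProbabilityTheory.uniformOn_univ, Measure.count_singleton, Fintype.card_coe, one_div]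

theorem mass_pos (hW : ∀ i, (W d b (k i) (Z i) (Z (i + 1))).Nonempty)
    [∀ i, IsProbabilityMeasure (prob b k Z i)] (i : ℕ) (v : Fin d → ℤ) :
    Measure.infinitePi (prob b k Z) {ω | pos b k v0 Z i ω = v} ≤
      ∏ j ∈ Finset.range i, ((W d b (k j) (Z j) (Z (j + 1))).card : ℝ≥0∞)⁻¹ := by
  rcases Set.eq_empty_or_nonempty {ω | pos b k v0 Z i ω = v} with h | h
  · rw [h, measure_empty]
    exact zero_le
  · obtain ⟨ω0, h0⟩ := h
    have h1 : {ω | pos b k v0 Z i ω = v} ⊆ Set.pi (Finset.range i : Set ℕ) (fun j => {ω0 j}) := by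
      intro ω hω j hj
      rw [Finset.mem_coe, Finset.mem_range] at hj
      rw [Set.mem_singleton_iff]
      exact pos_inj b k v0 Z ω ω0 i (Eq.trans hω h0.symm) j hj
    refine (measure_mono h1).trans (le_of_eq ?_)
    rw [Measure.infinitePi_pi (μ := prob b k Z) (fun j _ => measurableSet_singleton _)]
    apply Finset.prod_congr rfl
    intro j _
    exact prob_singleton b k Z j (ω0 j)

end Cantor

end Pool.Agent.Q85.KZ
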