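import Pool.Agent.Q85.KZ.D

set_option autoImplicit false

/-!
The dimension of the Cantor set.
-/

namespace Pool.Agent.Q85.KZ

open Set MeasureTheory Filter
open scoped Topology ENNReal

variable {d : ℕ}

theorem box_card {d : ℕ} (c : Fin d → ℤ) (B : ℕ) :
    (Fintype.piFinset fun j => Finset.Icc (c j - B) (c j + B)).card = (2 * B + 1) ^ d := by
  rw [Fintype.card_piFinset]
  have : ∀ j, (Finset.Icc (c j - (B:ℤ)) (c j + B)).card = 2 * B + 1 := by
    intro j
    rw [Int.card_Icc]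
    omega
  simp [this]

theorem mass_set (b : ℕ) (hb : 2 ≤ b) (k : ℕ → ℕ) (v0 : Fin d → ℤ) (Z : ℕ → Set (Fin d → ℝ))
    (hW : ∀ i, (W d b (k i) (Z i) (Z (i + 1))).Nonempty)
    [∀ i, IsProbabilityMeasure (prob b k Z i)] (m : ℕ → ℕ) (hmk : ∀ i, m (i + 1) = m i + k i)
    (i : ℕ) (r : ℝ) (hr : ((b:ℝ) ^ m (i + 1))⁻¹ ≤ r) (E : Set (Fin d → ℝ))
    (hE : Metric.ediam E ≤ ENNReal.ofReal r) :
    Measure.infinitePi (prob b k Z) {ω | lim b k v0 Z m ω ∈ E} ≤
      ENNReal.ofReal ((5 * (r * (b:ℝ) ^ m (i + 1))) ^ d) *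
      ∏ j ∈ Finset.range (i + 1), ((W d b (k j) (Z j) (Z (j + 1))).card : ℝ≥0∞)⁻¹ := by
  classical
  have hb0 : (0:ℝ) < b := by exact_mod_cast (by omega : 0 < b)
  have hL : (0:ℝ) < (b:ℝ) ^ m (i + 1) := by positivity
  have hr0 : 0 < r := lt_of_lt_of_le (by positivity) hr
  have hrL : 1 ≤ r * (b:ℝ) ^ m (i + 1) := by
    rw [inv_le_iff_one_le_mul₀ hL] at hr
    linarith
  rcases Set.eq_empty_or_nonempty {ω | lim b k v0 Z m ω ∈ E} with h | h
  · rw [h, measure_empty]
    exact zero_le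
  · obtain ⟨ω0, h0⟩ := h
    set B : ℕ := ⌊2 * (r * (b:ℝ) ^ m (i + 1))⌋₊ with hB
    set S := Fintype.piFinset fun j => Finset.Icc (pos b k v0 Z (i + 1) ω0 j - (B:ℤ))
      (pos b k v0 Z (i + 1) ω0 j + B) with hS
    have h1 : {ω | lim b k v0 Z m ω ∈ E} ⊆ ⋃ v ∈ S, {ω | pos b k v0 Z (i + 1) ω = v} := by
      intro ω hω
      refine mem_biUnion (x := pos b k v0 Z (i + 1) ω) ?_ rfl
      show _ ∈ S
      rw [hS, Fintype.mem_piFinset]
      intro j
      rw [Finset.mem_Icc]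
      have hω' : lim b k v0 Z m ω ∈ E := hω
      have hω0' : lim b k v0 Z m ω0 ∈ E := h0
      have h2 : edist (lim b k v0 Z m ω) (lim b k v0 Z m ω0) ≤ ENNReal.ofReal r :=
        (Metric.edist_le_ediam_of_mem hω' hω0').trans hE
      have h3 : |lim b k v0 Z m ω j - lim b k v0 Z m ω0 j| ≤ r := by
        have h4 : dist (lim b k v0 Z m ω) (lim b k v0 Z m ω0) ≤ r := by
          rw [edist_dist, ENNReal.ofReal_le_ofReal_iff hr0.le] at h2
          exact h2
        have h5 := (dist_pi_le_iff hr0.le).1 h4 j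
        rwa [Real.dist_eq] at h5
      have h6 := lim_bd b k v0 Z hb m hmk ω (i + 1) j
      have h7 := lim_bd b k v0 Z hb m hmk ω0 (i + 1) j
      have h8 : |cor b k v0 Z m (i + 1) ω j - cor b k v0 Z m (i + 1) ω0 j| ≤ 2 * r := by
        have := abs_le.1 h3
        rw [abs_le]
        constructor <;> linarith [h6.1, h6.2, h7.1, h7.2, this.1, this.2]
      have h9 : |(pos b k v0 Z (i + 1) ω j : ℝ) - pos b k v0 Z (i + 1) ω0 j| ≤
          2 * (r * (b:ℝ) ^ m (i + 1)) := by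
        have e1 : (pos b k v0 Z (i + 1) ω j : ℝ) - pos b k v0 Z (i + 1) ω0 j =
            (cor b k v0 Z m (i + 1) ω j - cor b k v0 Z m (i + 1) ω0 j) * (b:ℝ) ^ m (i + 1) := by
          unfold cor
          field_simp
        rw [e1, abs_mul, abs_of_pos hL]
        calc |cor b k v0 Z m (i + 1) ω j - cor b k v0 Z m (i + 1) ω0 j| * (b:ℝ) ^ m (i + 1)
            ≤ (2 * r) * (b:ℝ) ^ m (i + 1) := mul_le_mul_of_nonneg_right h8 hL.le
          _ = 2 * (r * (b:ℝ) ^ m (i + 1)) := by ring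
      have h10 : |pos b k v0 Z (i + 1) ω j - pos b k v0 Z (i + 1) ω0 j| ≤ (B:ℤ) := by
        have h11 : ((|pos b k v0 Z (i + 1) ω j - pos b k v0 Z (i + 1) ω0 j|.toNat : ℕ) : ℝ) ≤
            2 * (r * (b:ℝ) ^ m (i + 1)) := by
          have e2 : ((|pos b k v0 Z (i + 1) ω j - pos b k v0 Z (i + 1) ω0 j|.toNat : ℕ) : ℝ) =
              |(pos b k v0 Z (i + 1) ω j : ℝ) - pos b k v0 Z (i + 1) ω0 j| := by
            have e3 : ((|pos b k v0 Z (i + 1) ω j - pos b k v0 Z (i + 1) ω0 j|.toNat : ℕ) : ℤ) =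
              |pos b k v0 Z (i + 1) ω j - pos b k v0 Z (i + 1) ω0 j| :=
                Int.toNat_of_nonneg (abs_nonneg _)
            have e4 : (((|pos b k v0 Z (i + 1) ω j - pos b k v0 Z (i + 1) ω0 j|.toNat : ℕ) : ℤ) : ℝ) =
              ((|pos b k v0 Z (i + 1) ω j - pos b k v0 Z (i + 1) ω0 j| : ℤ) : ℝ) := by rw [e3]
            push_cast at e4 ⊢
            exact e4
          rw [e2]
          exact h9
        have h12 : (|pos b k v0 Z (i + 1) ω j - pos b k v0 Z (i + 1) ω0 j|.toNat) ≤ B :=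
          Nat.le_floor h11
        have h13 : |pos b k v0 Z (i + 1) ω j - pos b k v0 Z (i + 1) ω0 j| =
            ((|pos b k v0 Z (i + 1) ω j - pos b k v0 Z (i + 1) ω0 j|.toNat : ℕ) : ℤ) :=
          (Int.toNat_of_nonneg (abs_nonneg _)).symm
        rw [h13]
        exact_mod_cast h12
      have := abs_le.1 h10
      constructor <;> linarith [this.1, this.2]
    calc Measure.infinitePi (prob b k Z) {ω | lim b k v0 Z m ω ∈ E}
        ≤ ∑ v ∈ S, Measure.infinitePi (prob b k Z) {ω | pos b k v0 Z (i + 1) ω = v} :=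
          (measure_mono h1).trans (measure_biUnion_finset_le _ _)
      _ ≤ ∑ v ∈ S, ∏ j ∈ Finset.range (i + 1), ((W d b (k j) (Z j) (Z (j + 1))).card : ℝ≥0∞)⁻¹ :=
          Finset.sum_le_sum fun v _ => mass_pos b k v0 Z hW (i + 1) v
      _ = (S.card : ℝ≥0∞) *
          ∏ j ∈ Finset.range (i + 1), ((W d b (k j) (Z j) (Z (j + 1))).card : ℝ≥0∞)⁻¹ := by
          rw [Finset.sum_const, nsmul_eq_mul]
      _ ≤ _ := by
          apply mul_le_mul_left
          rw [hS, box_card, ← ENNReal.ofReal_natCast]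
          apply ENNReal.ofReal_le_ofReal
          push_cast
          apply pow_le_pow_left₀ (by positivity)
          have : (B:ℝ) ≤ 2 * (r * (b:ℝ) ^ m (i + 1)) := Nat.floor_le (by positivity)
          linarith

/-- **Dimension of a set with a chain of types with many sub-cubes.** -/
theorem cantor_dim {K : Set (Fin d → ℝ)} (hK : IsClosed K) {b : ℕ} (hb : 2 ≤ b) (v0 : Fin d → ℤ)
    (Z : ℕ → Set (Fin d → ℝ)) (hZ : ∀ i, (Z i).Nonempty) (m k : ℕ → ℕ)
    (hmk : ∀ i, m (i + 1) = m i + k i) (hk : ∀ i, 1 ≤ k i) (h0 : zoom b (m 0) v0 K = Z 0)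
    (β Λ : ℝ) (hβ : 0 ≤ β) (hs : 0 < (d:ℝ) - β * Λ)
    (hcard : ∀ i, (b:ℝ) ^ ((d:ℝ) * k i - β * m i) ≤ ((W d b (k i) (Z i) (Z (i + 1))).card : ℝ))
    (hΛ : ∀ i, ∑ j ∈ Finset.range (i + 1), (m j : ℝ) ≤ Λ * m i) :
    ENNReal.ofReal ((d:ℝ) - β * Λ) ≤ dimH K := by
  classical
  have hb0 : (0:ℝ) < b := by exact_mod_cast (by omega : 0 < b)
  have hb1 : (1:ℝ) < b := by exact_mod_cast (by omega : 1 < b)
  set s : ℝ := (d:ℝ) - β * Λ with hsdef
  have hW : ∀ i, (W d b (k i) (Z i) (Z (i + 1))).Nonempty := by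
    intro i
    rw [← Finset.card_pos]
    have h1 : (0:ℝ) < ((W d b (k i) (Z i) (Z (i + 1))).card : ℝ) :=
      lt_of_lt_of_le (Real.rpow_pos_of_pos hb0 _) (hcard i)
    exact_mod_cast h1
  have : ∀ i, IsProbabilityMeasure (prob b k Z i) := prob_isProb b k Z hW
  set μ := (Measure.infinitePi (prob b k Z)).map (lim b k v0 Z m) with hμ
  have hmeas := measurable_lim b k v0 Z hb m hmk hk
  set C : ℝ := 5 ^ d * (b:ℝ) ^ ((d:ℝ) * m 0) with hC
  have hC1 : 1 ≤ C := by
    rw [hC]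
    have h1 : (1:ℝ) ≤ 5 ^ d := one_le_pow₀ (by norm_num)
    have h2 : 1 ≤ (b:ℝ) ^ ((d:ℝ) * m 0) := Real.one_le_rpow hb1.le (by positivity)
    nlinarith
  have hsum : ∀ i, ∑ j ∈ Finset.range (i + 1), (k j : ℝ) = m (i + 1) - m 0 := by
    intro i
    induction i with
    | zero => simp [hmk 0]
    | succ i ih =>
      rw [Finset.sum_range_succ, ih, hmk (i + 1)]
      push_cast
      ring
  -- the mass of sets of diameter between two levels
  have key : ∀ i : ℕ, ∀ r : ℝ, ((b:ℝ) ^ m (i + 1))⁻¹ ≤ r → r ≤ ((b:ℝ) ^ m i)⁻¹ →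
      ∀ E : Set (Fin d → ℝ), Metric.ediam E ≤ ENNReal.ofReal r → μ E ≤ ENNReal.ofReal (C * r ^ s) := by
    intro i r hr1 hr2 E hE
    have hr0 : 0 < r := lt_of_lt_of_le (by positivity) hr1
    have h1 : μ E ≤ μ (closure E) := measure_mono subset_closure
    have h2 : μ (closure E) = Measure.infinitePi (prob b k Z) {ω | lim b k v0 Z m ω ∈ closure E} := by
      rw [hμ, Measure.map_apply hmeas isClosed_closure.measurableSet]
      rfl
    have h3 := mass_set b hb k v0 Z hW m hmk i r hr1 (closure E) (by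
      rw [Metric.ediam_closure]; exact hE)
    rw [← h2] at h3
    refine h1.trans (h3.trans ?_)
    have h4 : ∏ j ∈ Finset.range (i + 1), ((W d b (k j) (Z j) (Z (j + 1))).card : ℝ≥0∞)⁻¹ ≤
        ENNReal.ofReal (∏ j ∈ Finset.range (i + 1), (b:ℝ) ^ (β * m j - (d:ℝ) * k j)) := by
      rw [ENNReal.ofReal_prod_of_nonneg (fun j _ => (Real.rpow_pos_of_pos hb0 _).le)]
      apply Finset.prod_le_prod'
      intro j _
      have hcj : (0:ℝ) < ((W d b (k j) (Z j) (Z (j + 1))).card : ℝ) := by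
        exact_mod_cast Finset.card_pos.2 (hW j)
      rw [← ENNReal.ofReal_natCast, ← ENNReal.ofReal_inv_of_pos hcj]
      apply ENNReal.ofReal_le_ofReal
      rw [inv_le_comm₀ hcj (Real.rpow_pos_of_pos hb0 _), ← Real.rpow_neg hb0.le]
      have : -(β * (m j : ℝ) - (d:ℝ) * k j) = (d:ℝ) * k j - β * m j := by ring
      rw [this]
      exact hcard j
    have h5 : ∏ j ∈ Finset.range (i + 1), (b:ℝ) ^ (β * (m j:ℝ) - (d:ℝ) * k j) =
        (b:ℝ) ^ (β * ∑ j ∈ Finset.range (i + 1), (m j : ℝ) - (d:ℝ) * (m (i + 1) - m 0)) := by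
      rw [← Real.rpow_sum_of_pos hb0]
      congr 1
      rw [Finset.sum_sub_distrib, ← Finset.mul_sum, ← Finset.mul_sum, hsum i]
    rw [h5] at h4
    refine (mul_le_mul_right h4 _).trans ?_
    rw [← ENNReal.ofReal_mul (by positivity)]
    apply ENNReal.ofReal_le_ofReal
    -- real estimate
    have h6 : (b:ℝ) ^ (β * ∑ j ∈ Finset.range (i + 1), (m j : ℝ) - (d:ℝ) * (m (i + 1) - m 0)) ≤
        (b:ℝ) ^ (β * Λ * m i) * ((b:ℝ) ^ ((d:ℝ) * m 0) * ((b:ℝ) ^ ((d:ℝ) * m (i + 1)))⁻¹) := by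
      rw [← Real.rpow_neg hb0.le, ← Real.rpow_add hb0, ← Real.rpow_add hb0]
      apply Real.rpow_le_rpow_of_exponent_le hb1.le
      have := mul_le_mul_of_nonneg_left (hΛ i) hβ
      nlinarith
    have h7 : (b:ℝ) ^ (β * Λ * m i) ≤ r ^ (-(β * Λ)) := by
      have h8 : (b:ℝ) ^ (β * Λ * m i) = (((b:ℝ) ^ m i)⁻¹) ^ (-(β * Λ)) := by
        rw [← Real.rpow_natCast, ← Real.rpow_neg hb0.le, ← Real.rpow_mul hb0.le]
        congr 1
        ring
      rw [h8]
      apply Real.rpow_le_rpow_of_nonpos hr0 hr2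
      have hΛ0 : 0 ≤ β * Λ := by
        rcases eq_or_lt_of_le hβ with h | h
        · rw [← h, zero_mul]
        · have h9 := hΛ 0
          simp only [zero_add, Finset.range_one, Finset.sum_singleton] at h9
          have h10 := hΛ 1
          rw [Finset.sum_range_succ] at h10
          simp only [Finset.range_one, Finset.sum_singleton] at h10
          have h11 : (1:ℝ) ≤ m 1 := by
            have := hk 0
            have h12 := hmk 0
            have : 1 ≤ m 1 := by
              simp only [zero_add] at h12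
              omega
            exact_mod_cast this
          have h13 : (0:ℝ) ≤ m 0 := Nat.cast_nonneg _
          have : 0 ≤ Λ := by
            by_contra hcon
            push Not at hcon
            nlinarith
          positivity
      linarith
    have h14 : (5 * (r * (b:ℝ) ^ m (i + 1))) ^ d = 5 ^ d * (r ^ (d:ℝ) * (b:ℝ) ^ ((d:ℝ) * m (i + 1))) := by
      rw [mul_pow, mul_pow, Real.rpow_natCast]
      congr 2
      rw [mul_comm (d:ℝ), Real.rpow_mul hb0.le, Real.rpow_natCast, Real.rpow_natCast]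
    rw [h14]
    have hX : 0 < (b:ℝ) ^ ((d:ℝ) * m (i + 1)) := Real.rpow_pos_of_pos hb0 _
    have hrd : 0 < r ^ (d:ℝ) := Real.rpow_pos_of_pos hr0 _
    calc 5 ^ d * (r ^ (d:ℝ) * (b:ℝ) ^ ((d:ℝ) * m (i + 1))) *
          (b:ℝ) ^ (β * ∑ j ∈ Finset.range (i + 1), (m j : ℝ) - (d:ℝ) * (m (i + 1) - m 0))
        ≤ 5 ^ d * (r ^ (d:ℝ) * (b:ℝ) ^ ((d:ℝ) * m (i + 1))) *
          (r ^ (-(β * Λ)) * ((b:ℝ) ^ ((d:ℝ) * m 0) * ((b:ℝ) ^ ((d:ℝ) * m (i + 1)))⁻¹)) := by
          apply mul_le_mul_of_nonneg_left _ (by positivity)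
          refine h6.trans ?_
          apply mul_le_mul_of_nonneg_right h7
          positivity
      _ = C * (r ^ (d:ℝ) * r ^ (-(β * Λ))) := by
          rw [hC]
          field_simp
      _ = C * r ^ s := by
          rw [← Real.rpow_add hr0]
          rfl
  have htend := tendsto_m b k m hmk hk hb
  -- all small sets
  have hsmall : ∀ E : Set (Fin d → ℝ), Metric.ediam E ≤ ENNReal.ofReal (((b:ℝ) ^ m 0)⁻¹) →
      (ENNReal.ofReal C)⁻¹ * μ E ≤ Metric.ediam E ^ s := by
    intro E hE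
    have hCne : ENNReal.ofReal C ≠ 0 := by
      rw [Ne, ENNReal.ofReal_eq_zero]
      linarith
    rw [ENNReal.inv_mul_le_iff hCne ENNReal.ofReal_ne_top]
    have hfin : Metric.ediam E ≠ ⊤ := (hE.trans_lt ENNReal.ofReal_lt_top).ne
    rcases eq_or_ne (Metric.ediam E) 0 with hz | hz
    · rw [hz, ENNReal.zero_rpow_of_pos hs, mul_zero]
      have h1 : ∀ i, μ E ≤ ENNReal.ofReal (C * (((b:ℝ) ^ m i)⁻¹) ^ s) := by
        intro i
        refine key i _ ?_ le_rfl E (by rw [hz]; exact zero_le)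
        rw [hmk i]
        apply inv_anti₀ (by positivity)
        exact pow_le_pow_right₀ hb1.le (Nat.le_add_right _ _)
      have h2 : Tendsto (fun i => ENNReal.ofReal (C * (((b:ℝ) ^ m i)⁻¹) ^ s)) atTop (𝓝 0) := by
        have h3 : Tendsto (fun i => C * (((b:ℝ) ^ m i)⁻¹) ^ s) atTop (𝓝 (C * 0 ^ s)) :=
          (htend.rpow_const (Or.inr hs.le)).const_mul C
        rw [Real.zero_rpow hs.ne', mul_zero] at h3
        have h4 := ENNReal.tendsto_ofReal h3
        rwa [ENNReal.ofReal_zero] at h4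
      exact ge_of_tendsto' h2 h1
    · set r : ℝ := (Metric.ediam E).toReal with hr
      have hr0 : 0 < r := ENNReal.toReal_pos hz hfin
      have hrE : Metric.ediam E = ENNReal.ofReal r := (ENNReal.ofReal_toReal hfin).symm
      have hr1 : r ≤ ((b:ℝ) ^ m 0)⁻¹ := by
        rw [hrE, ENNReal.ofReal_le_ofReal_iff (by positivity)] at hE
        exact hE
      have hex : ∃ i, ((b:ℝ) ^ m (i + 1))⁻¹ ≤ r := by
        have := (htend.eventually (gt_mem_nhds hr0)).exists
        obtain ⟨i, hi⟩ := this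
        refine ⟨i, ?_⟩
        refine le_trans ?_ hi.le
        rw [hmk i]
        apply inv_anti₀ (by positivity)
        exact pow_le_pow_right₀ hb1.le (Nat.le_add_right _ _)
      set i := Nat.find hex with hi
      have hi1 := Nat.find_spec hex
      have hi2 : r ≤ ((b:ℝ) ^ m i)⁻¹ := by
        rcases Nat.eq_zero_or_pos i with h | h
        · rw [h]; exact hr1
        · have h5 := Nat.find_min hex (m := i - 1) (by omega)
          rw [Nat.sub_add_cancel h] at h5
          push Not at h5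
          exact h5.le
      have h6 := key i r hi1 hi2 E hrE.le
      refine h6.trans (le_of_eq ?_)
      rw [hrE, ENNReal.ofReal_rpow_of_pos hr0, ← ENNReal.ofReal_mul (by linarith)]
  -- conclusion
  have hle : (ENNReal.ofReal C)⁻¹ • μ ≤ Measure.hausdorffMeasure s := by
    apply Measure.le_hausdorffMeasure s _ (ENNReal.ofReal (((b:ℝ) ^ m 0)⁻¹))
      (ENNReal.ofReal_pos.2 (by positivity))
    intro E hE
    rw [Measure.smul_apply, smul_eq_mul]
    exact hsmall E hE
  have hμK : μ K = 1 := by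
    rw [hμ, Measure.map_apply hmeas hK.measurableSet]
    have : lim b k v0 Z m ⁻¹' K = Set.univ := by
      ext ω
      simp only [mem_preimage, mem_univ, iff_true]
      exact lim_mem b k v0 Z hK hb m hmk hk h0 hZ ω
    rw [this]
    exact measure_univ
  have hpos : Measure.hausdorffMeasure s K ≠ 0 := by
    have h1 := hle K
    rw [Measure.smul_apply, smul_eq_mul, hμK, mul_one] at h1
    intro h2
    rw [h2] at h1
    have h3 : (ENNReal.ofReal C)⁻¹ ≠ 0 := ENNReal.inv_ne_zero.2 ENNReal.ofReal_ne_top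
    exact h3 (le_antisymm h1 zero_le)
  have hfinal := le_dimH_of_hausdorffMeasure_ne_zero (s := K) (d := s.toNNReal) (by
    rw [Real.coe_toNNReal _ hs.le]
    exact hpos)
  exact hfinal

end Pool.Agent.Q85.KZ
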