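import Pool.Agent.Q85.KZ.B

set_option autoImplicit false

/-!
Almost every direction is not too well approximable.
-/

namespace Pool.Agent.Q85.KZ

open Set MeasureTheory Filter
open scoped Topology ENNReal

theorem vol_near (q : ℕ) (hq : 1 ≤ q) (L : ℕ) (κ : ℝ) (hκ0 : 0 ≤ κ) :
    volume ({x : ℝ | ∃ z : ℤ, |(q:ℝ) * x - z| < (q:ℝ) ^ (-κ)} ∩ Icc (-(L:ℝ)) L) ≤
      ENNReal.ofReal (2 * (2 * L + 3) * (q:ℝ) ^ (-κ)) := by
  classical
  have hq0 : (0:ℝ) < q := by exact_mod_cast hq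
  have hq1 : (1:ℝ) ≤ q := by exact_mod_cast hq
  set δ : ℝ := (q:ℝ) ^ (-κ) with hδ
  have hδ0 : 0 < δ := Real.rpow_pos_of_pos hq0 _
  have hδ1 : δ ≤ 1 := by
    rw [hδ, Real.rpow_neg hq0.le]
    exact inv_le_one_of_one_le₀ (Real.one_le_rpow hq1 hκ0)
  set S : Finset ℤ := Finset.Icc (-((q:ℤ) * L + 1)) ((q:ℤ) * L + 1) with hS
  have h1 : {x : ℝ | ∃ z : ℤ, |(q:ℝ) * x - z| < δ} ∩ Icc (-(L:ℝ)) L ⊆
      ⋃ z ∈ S, Ioo (((z:ℝ) - δ) / q) (((z:ℝ) + δ) / q) := by
    rintro x ⟨⟨z, hz⟩, hx⟩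
    rw [abs_lt] at hz
    refine mem_biUnion (x := z) ?_ ?_
    · show z ∈ S
      rw [hS, Finset.mem_Icc]
      have e1 : (q:ℝ) * x ≤ q * L := mul_le_mul_of_nonneg_left hx.2 hq0.le
      have e2 : (q:ℝ) * (-L) ≤ q * x := mul_le_mul_of_nonneg_left hx.1 hq0.le
      constructor
      · have : (-((q:ℝ) * L + 1)) ≤ z := by linarith [hz.2]
        exact_mod_cast this
      · have : (z:ℝ) ≤ (q:ℝ) * L + 1 := by linarith [hz.1]
        exact_mod_cast this
    · rw [mem_Ioo, div_lt_iff₀ hq0, lt_div_iff₀ hq0]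
      constructor <;> linarith [hz.1, hz.2]
  have h2 : ∀ z ∈ S, volume (Ioo (((z:ℝ) - δ) / q) (((z:ℝ) + δ) / q)) = ENNReal.ofReal (2 * δ / q) := by
    intro z _
    rw [Real.volume_Ioo]
    congr 1
    field_simp
    ring
  calc volume ({x : ℝ | ∃ z : ℤ, |(q:ℝ) * x - z| < δ} ∩ Icc (-(L:ℝ)) L)
      ≤ ∑ z ∈ S, volume (Ioo (((z:ℝ) - δ) / q) (((z:ℝ) + δ) / q)) :=
        (measure_mono h1).trans (measure_biUnion_finset_le _ _)
    _ = ∑ z ∈ S, ENNReal.ofReal (2 * δ / q) := Finset.sum_congr rfl h2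
    _ = ENNReal.ofReal (S.card * (2 * δ / q)) := by
        rw [Finset.sum_const, nsmul_eq_mul, ENNReal.ofReal_mul (Nat.cast_nonneg _),
          ENNReal.ofReal_natCast]
    _ ≤ _ := by
        apply ENNReal.ofReal_le_ofReal
        have h3 : (S.card : ℝ) ≤ q * (2 * L + 3) := by
          have h4 : S.card = 2 * q * L + 3 := by
            rw [hS, Int.card_Icc]
            have : (q:ℤ) * L + 1 + 1 - -((q:ℤ) * L + 1) = ((2 * q * L + 3 : ℕ) : ℤ) := by
              push_cast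
              ring
            rw [this, Int.toNat_natCast]
          rw [h4]
          push_cast
          nlinarith
        calc (S.card : ℝ) * (2 * δ / q) ≤ (q * (2 * L + 3)) * (2 * δ / q) :=
              mul_le_mul_of_nonneg_right h3 (by positivity)
          _ = 2 * (2 * L + 3) * δ := by
              field_simp

theorem ae_dio_box {n : ℕ} {κ : ℝ} (hκ0 : 0 ≤ κ) (hκ : 1 < n * κ) (L : ℕ) :
    ∀ᵐ α : Fin n → ℝ, ∀ᶠ q : ℕ in atTop,
      α ∉ Set.pi univ (fun _ : Fin n => {x : ℝ | ∃ z : ℤ, |(q:ℝ) * x - z| < (q:ℝ) ^ (-κ)} ∩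
        Icc (-(L:ℝ)) L) := by
  apply ae_eventually_notMem
  set C : ℝ := (2 * (2 * (L:ℝ) + 3)) ^ n with hC
  have h0 : ∀ q : ℕ, 1 ≤ q → volume (Set.pi univ (fun _ : Fin n =>
      {x : ℝ | ∃ z : ℤ, |(q:ℝ) * x - z| < (q:ℝ) ^ (-κ)} ∩ Icc (-(L:ℝ)) L)) ≤
      ENNReal.ofReal (C * (1 / (q:ℝ) ^ (n * κ))) := by
    intro q hq
    rw [volume_pi_pi, Finset.prod_const, Finset.card_univ, Fintype.card_fin]
    have hq0 : (0:ℝ) < q := by exact_mod_cast hq
    calc _ ≤ (ENNReal.ofReal (2 * (2 * L + 3) * (q:ℝ) ^ (-κ))) ^ n := by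
          gcongr
          exact vol_near q hq L κ hκ0
      _ = ENNReal.ofReal ((2 * (2 * L + 3) * (q:ℝ) ^ (-κ)) ^ n) := by
          rw [ENNReal.ofReal_pow (by positivity)]
      _ = _ := by
          congr 1
          rw [mul_pow, hC, ← Real.rpow_natCast ((q:ℝ) ^ (-κ)), ← Real.rpow_mul hq0.le, one_div,
            ← Real.rpow_neg hq0.le]
          congr 2
          ring
  have hsum : Summable fun q : ℕ => C * (1 / (q:ℝ) ^ (n * κ)) :=
    (Real.summable_one_div_nat_rpow.2 hκ).mul_left C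
  have h1 : (∑' q : ℕ, volume (Set.pi univ (fun _ : Fin n =>
      {x : ℝ | ∃ z : ℤ, |(q:ℝ) * x - z| < (q:ℝ) ^ (-κ)} ∩ Icc (-(L:ℝ)) L))) ≤
      volume (Set.pi univ (fun _ : Fin n => Icc (-(L:ℝ)) L)) +
        ∑' q : ℕ, ENNReal.ofReal (C * (1 / ((q + 1 : ℕ):ℝ) ^ (n * κ))) := by
    rw [tsum_eq_zero_add' ENNReal.summable]
    apply add_le_add
    · apply measure_mono
      apply Set.pi_mono
      intro i _
      exact inter_subset_right
    · apply ENNReal.tsum_le_tsum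
      intro q
      exact h0 (q + 1) (by omega)
  refine ne_top_of_le_ne_top ?_ h1
  rw [ENNReal.add_ne_top]
  constructor
  · rw [volume_pi_pi]
    apply ENNReal.prod_ne_top
    intro i _
    exact measure_Icc_lt_top.ne
  · have hs' : Summable fun q : ℕ => C * (1 / ((q + 1 : ℕ):ℝ) ^ (n * κ)) :=
      (summable_nat_add_iff 1).2 hsum
    rw [← ENNReal.ofReal_tsum_of_nonneg (fun q => by positivity) hs']
    exact ENNReal.ofReal_ne_top

/-- **Almost every vector is not too well approximable by rational vectors.** -/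
theorem ae_dio {n : ℕ} (hn : 0 < n) {κ : ℝ} (hκ0 : 0 ≤ κ) (hκ : 1 < n * κ) :
    ∀ᵐ α : Fin n → ℝ, ∃ c : ℝ, 0 < c ∧ Dio α κ c := by
  have h1 : ∀ᵐ α : Fin n → ℝ, ∀ L : ℕ, ∀ᶠ q : ℕ in atTop,
      α ∉ Set.pi univ (fun _ : Fin n => {x : ℝ | ∃ z : ℤ, |(q:ℝ) * x - z| < (q:ℝ) ^ (-κ)} ∩
        Icc (-(L:ℝ)) L) := ae_all_iff.2 fun L => ae_dio_box hκ0 hκ L
  have h2 : ∀ᵐ α : Fin n → ℝ, Irrational (α ⟨0, hn⟩) := by
    have hq : Measure.QuasiMeasurePreserving (fun α : Fin n → ℝ => α ⟨0, hn⟩) volume volume :=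
      Measure.quasiMeasurePreserving_eval (μ := fun _ : Fin n => (volume : Measure ℝ)) ⟨0, hn⟩
    have h3 : ∀ᵐ x : ℝ, Irrational x := by
      rw [ae_iff]
      have : {a : ℝ | ¬ Irrational a} = Set.range ((↑) : ℚ → ℝ) := by
        ext x
        simp [Irrational]
      rw [this]
      exact (Set.countable_range _).measure_zero _
    exact hq.ae h3
  filter_upwards [h1, h2] with α hα1 hα2
  set j0 : Fin n := ⟨0, hn⟩ with hj0
  -- a box
  obtain ⟨L, hL⟩ : ∃ L : ℕ, ∀ j, α j ∈ Icc (-(L:ℝ)) L := by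
    obtain ⟨L, hL⟩ := exists_nat_ge (∑ j, |α j|)
    refine ⟨L, fun j => ?_⟩
    have h3 : |α j| ≤ ∑ j, |α j| := Finset.single_le_sum (f := fun j => |α j|)
      (fun i _ => abs_nonneg _) (Finset.mem_univ j)
    exact abs_le.1 (h3.trans hL)
  obtain ⟨Q, hQ⟩ := eventually_atTop.1 (hα1 L)
  -- small denominators
  have hsmall : ∀ Q : ℕ, ∃ c : ℝ, 0 < c ∧ ∀ q : ℕ, 1 ≤ q → q < Q → ∀ z : ℤ,
      c ≤ |(q:ℝ) * α j0 - z| := by
    intro Q
    induction Q with
    | zero => exact ⟨1, one_pos, fun q _ hq => absurd hq (Nat.not_lt_zero _)⟩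
    | succ Q ih =>
      obtain ⟨c, hc, hcq⟩ := ih
      rcases Nat.eq_zero_or_pos Q with h0 | h0
      · exact ⟨1, one_pos, fun q hq1 hq2 => by omega⟩
      · have hirr : Irrational ((Q:ℝ) * α j0) := by
          have := hα2.natCast_mul (m := Q) (by omega)
          exact this
        have hpos : 0 < |(Q:ℝ) * α j0 - round ((Q:ℝ) * α j0)| := by
          rw [abs_pos, sub_ne_zero]
          exact hirr.ne_int _
        refine ⟨min c |(Q:ℝ) * α j0 - round ((Q:ℝ) * α j0)|, lt_min hc hpos, ?_⟩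
        intro q hq1 hq2 z
        rcases Nat.lt_or_ge q Q with h | h
        · exact (min_le_left _ _).trans (hcq q hq1 h z)
        · have : q = Q := by omega
          subst this
          exact (min_le_right _ _).trans (round_le _ z)
  obtain ⟨c, hc, hcq⟩ := hsmall Q
  have hnat : ∀ q : ℕ, 1 ≤ q → ∀ z : Fin n → ℤ, ∃ j, min c 1 * (q:ℝ) ^ (-κ) ≤ |(q:ℝ) * α j - z j| := by
    intro q hq z
    have hq0 : (0:ℝ) < q := by exact_mod_cast hq
    have hq1 : (1:ℝ) ≤ q := by exact_mod_cast hq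
    have hδ0 : 0 < (q:ℝ) ^ (-κ) := Real.rpow_pos_of_pos hq0 _
    have hδ1 : (q:ℝ) ^ (-κ) ≤ 1 := by
      rw [Real.rpow_neg hq0.le]
      exact inv_le_one_of_one_le₀ (Real.one_le_rpow hq1 hκ0)
    rcases Nat.lt_or_ge q Q with h | h
    · refine ⟨j0, le_trans ?_ (hcq q hq h (z j0))⟩
      calc min c 1 * (q:ℝ) ^ (-κ) ≤ c * 1 :=
            mul_le_mul (min_le_left _ _) hδ1 hδ0.le hc.le
        _ = c := mul_one c
    · have h3 := hQ q h
      by_contra hcon
      push Not at hcon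
      apply h3
      intro j _
      refine ⟨⟨z j, (hcon j).trans_le ?_⟩, hL j⟩
      calc min c 1 * (q:ℝ) ^ (-κ) ≤ 1 * (q:ℝ) ^ (-κ) :=
            mul_le_mul_of_nonneg_right (min_le_right _ _) hδ0.le
        _ = _ := one_mul _
  refine ⟨min c 1, lt_min hc one_pos, ?_⟩
  intro q hq z
  obtain ⟨N, hN⟩ := Int.eq_nat_or_neg q
  have hN1 : 1 ≤ N := by
    rcases Nat.eq_zero_or_pos N with h | h
    · subst h
      rcases hN with h | h <;> simp [h] at hq
    · exact h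
  rcases hN with h | h
  · obtain ⟨j, hj⟩ := hnat N hN1 z
    refine ⟨j, ?_⟩
    rw [h]
    push_cast
    rw [abs_of_nonneg (Nat.cast_nonneg N)]
    exact hj
  · obtain ⟨j, hj⟩ := hnat N hN1 (fun j => - z j)
    refine ⟨j, ?_⟩
    rw [h]
    push_cast at hj ⊢
    rw [abs_neg, abs_of_nonneg (Nat.cast_nonneg N)]
    refine hj.trans (le_of_eq ?_)
    rw [← abs_neg]
    congr 1
    ring

end Pool.Agent.Q85.KZ
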