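import Pool.Agent.Q85.KZ.E
import Pool.Agent.Q85.KZ.F

set_option autoImplicit false

/-!
Sets of low zoom complexity with a segment in a generic direction.
-/

namespace Pool.Agent.Q85.KZ

open Set MeasureTheory Filter
open scoped Topology ENNReal

/-- `K` has at most `A b^(h m)` different zooms at the level `m`. -/
def ZoomBound {d : ℕ} (b : ℕ) (A h : ℝ) (K : Set (Fin d → ℝ)) : Prop :=
  ∀ m : ℕ, ∃ S : Finset (Set (Fin d → ℝ)), (S.card : ℝ) ≤ A * (b:ℝ) ^ (h * m) ∧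
    ∀ v : Fin d → ℤ, zoom b m v K ∈ S

/-- the levels -/
def lev (n M0 : ℕ) : ℕ → ℕ
  | 0 => M0
  | i + 1 => lev n M0 i + lev n M0 i / n

theorem lev_ge (n M0 : ℕ) (i : ℕ) : M0 ≤ lev n M0 i := by
  induction i with
  | zero => exact le_rfl
  | succ i ih =>
    show M0 ≤ lev n M0 i + lev n M0 i / n
    exact ih.trans (Nat.le_add_right _ _)

theorem lev_sum {n M0 : ℕ} (hn : 0 < n) {ε : ℝ} (hε : 0 < ε) (hM : (n:ℝ) / ε ≤ ((M0 / n : ℕ) : ℝ))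
    (i : ℕ) : ∑ j ∈ Finset.range (i + 1), (lev n M0 j : ℝ) ≤ ((n:ℝ) + 1 + ε) * lev n M0 i := by
  induction i with
  | zero =>
    rw [zero_add, Finset.range_one, Finset.sum_singleton]
    have : (0:ℝ) ≤ lev n M0 0 := Nat.cast_nonneg _
    have hn' : (0:ℝ) ≤ n := Nat.cast_nonneg _
    nlinarith
  | succ i ih =>
    rw [Finset.sum_range_succ]
    have h1 : (lev n M0 (i + 1) : ℝ) = lev n M0 i + ((lev n M0 i / n : ℕ) : ℝ) := by
      show ((lev n M0 i + lev n M0 i / n : ℕ) : ℝ) = _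
      push_cast
      rfl
    have h2 : (n:ℝ) / ε ≤ ((lev n M0 i / n : ℕ) : ℝ) := by
      refine hM.trans ?_
      exact_mod_cast Nat.div_le_div_right (lev_ge n M0 i)
    have h3 : (lev n M0 i : ℝ) ≤ n * ((lev n M0 i / n : ℕ) : ℝ) + n := by
      have := Nat.div_add_mod (lev n M0 i) n
      have h4 := Nat.mod_lt (lev n M0 i) hn
      have h5 : lev n M0 i ≤ n * (lev n M0 i / n) + n := by omega
      exact_mod_cast h5
    rw [div_le_iff₀ hε] at h2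
    rw [h1]
    nlinarith

theorem main_eps {n : ℕ} (hn : 0 < n) {b : ℕ} (hb : 2 ≤ b) {A h : ℝ} (hh : 0 ≤ h)
    {K : Set (Fin (n + 1) → ℝ)} (hK : IsClosed K) (hA : ZoomBound b A h K)
    (α : Fin n → ℝ) (hα : ∀ κ : ℝ, 0 ≤ κ → 1 < n * κ → ∃ c : ℝ, 0 < c ∧ Dio α κ c)
    (p : Fin (n + 1) → ℝ) {τ : ℝ} (hτ : 0 < τ)
    (hseg : ∀ t ∈ Icc (0:ℝ) τ, (fun i => p i + t * dir α i) ∈ K) {ε : ℝ} (hε : 0 < ε) (hε1 : ε < 1) :
    ENNReal.ofReal (((n:ℝ) + 1) - (2 * ε + (h + ε) * ((n:ℝ) + 1 + ε) * (1 + 1 / n)) *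
      ((n:ℝ) + 1 + ε)) ≤ dimH K := by
  classical
  have hb0 : (0:ℝ) < b := by exact_mod_cast (by omega : 0 < b)
  have hb1 : (1:ℝ) < b := by exact_mod_cast (by omega : 1 < b)
  have hn0 : (0:ℝ) < n := by exact_mod_cast hn
  have hn1 : (1:ℝ) ≤ n := by exact_mod_cast hn
  set κ : ℝ := ((n:ℝ) - ε)⁻¹ with hκ
  have hκi : κ⁻¹ = (n:ℝ) - ε := inv_inv _
  have hκ0 : 0 < κ := inv_pos.2 (by linarith)
  have hκn : 1 < n * κ := by
    rw [hκ, ← div_eq_mul_inv, one_lt_div (by linarith)]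
    linarith
  obtain ⟨c, hc, hdio⟩ := hα κ hκ0.le hκn
  set M : ℝ := 1 + ∑ j, |α j| with hM
  have hM1 : 1 ≤ M := by
    have : 0 ≤ ∑ j, |α j| := Finset.sum_nonneg fun _ _ => abs_nonneg _
    linarith
  have hαM : ∀ j, 1 + |α j| ≤ M := by
    intro j
    have : |α j| ≤ ∑ j, |α j| := Finset.single_le_sum (f := fun j => |α j|)
      (fun i _ => abs_nonneg _) (Finset.mem_univ j)
    linarith
  set C : ℝ := 2 * (2 * (τ + 2) * (2 * M / c) ^ (κ⁻¹) + 1) with hC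
  have hC0 : 0 < C := by
    have : 0 < (2 * M / c) ^ (κ⁻¹) := Real.rpow_pos_of_pos (by positivity) _
    positivity
  -- the first level
  have hbig : Tendsto (fun M0 : ℕ => (b:ℝ) ^ (ε * M0)) atTop atTop := by
    have h1 : ∀ M0 : ℕ, (b:ℝ) ^ (ε * M0) = ((b:ℝ) ^ ε) ^ M0 := by
      intro M0
      rw [Real.rpow_mul hb0.le, Real.rpow_natCast]
    simp only [h1]
    exact tendsto_pow_atTop_atTop_of_one_lt (Real.one_lt_rpow hb1 hε)
  obtain ⟨M0, hM0a, hM0b, hM0c⟩ : ∃ M0 : ℕ, n * (⌈(n:ℝ) / ε⌉₊ + 1) ≤ M0 ∧ A ≤ (b:ℝ) ^ (ε * M0) ∧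
      C / τ ≤ (b:ℝ) ^ (ε * M0) := by
    have h1 := (eventually_ge_atTop (n * (⌈(n:ℝ) / ε⌉₊ + 1))).and
      ((hbig.eventually_ge_atTop A).and (hbig.eventually_ge_atTop (C / τ)))
    exact h1.exists
  have hM0d : ⌈(n:ℝ) / ε⌉₊ + 1 ≤ M0 / n := by
    rw [Nat.le_div_iff_mul_le hn]
    linarith [mul_comm n (⌈(n:ℝ) / ε⌉₊ + 1)]
  have hM0e : (n:ℝ) / ε ≤ ((M0 / n : ℕ) : ℝ) := by
    refine (Nat.le_ceil _).trans ?_
    exact_mod_cast (Nat.le_succ _).trans hM0d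
  set m : ℕ → ℕ := lev n M0 with hm
  set k : ℕ → ℕ := fun i => m i / n with hk
  have hmk : ∀ i, m (i + 1) = m i + k i := fun i => rfl
  have hm0 : ∀ i, M0 ≤ m i := lev_ge n M0
  have hk1 : ∀ i, 1 ≤ k i := by
    intro i
    have h1 : M0 / n ≤ m i / n := Nat.div_le_div_right (hm0 i)
    have h2 : 1 ≤ M0 / n := le_trans (Nat.le_add_left _ _) hM0d
    exact h2.trans h1
  have hkm : ∀ i, (k i : ℝ) ≤ m i / n := fun i => Nat.cast_div_le
  have hkκ : ∀ i, (k i : ℝ) ≤ κ * m i := by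
    intro i
    refine (hkm i).trans ?_
    rw [div_le_iff₀ hn0]
    have h1 : (0:ℝ) ≤ m i := Nat.cast_nonneg _
    nlinarith
  have hpow : ∀ i, (b:ℝ) ^ (ε * M0) ≤ (b:ℝ) ^ (ε * m i) := by
    intro i
    apply Real.rpow_le_rpow_of_exponent_le hb1.le
    apply mul_le_mul_of_nonneg_left _ hε.le
    exact_mod_cast hm0 i
  have hN : ∀ i, (0:ℝ) < (b:ℝ) ^ ((h + ε) * m i) := fun i => Real.rpow_pos_of_pos hb0 _
  have hR : ∀ i, 0 ≤ C * (((b:ℝ) ^ k i)⁻¹) ^ (1 + κ⁻¹) := by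
    intro i
    have : 0 ≤ (((b:ℝ) ^ k i)⁻¹) ^ (1 + κ⁻¹) := Real.rpow_nonneg (by positivity) _
    positivity
  obtain ⟨v0, Z, hZne, hZ0, hcount⟩ := chain hb hτ hseg m k hmk (fun i => (b:ℝ) ^ ((h + ε) * m i))
    (fun i => C * (((b:ℝ) ^ k i)⁻¹) ^ (1 + κ⁻¹)) hN hR (by
      intro i
      obtain ⟨S, hS1, hS2⟩ := hA (m i)
      refine ⟨S, hS1.trans ?_, hS2⟩
      have e1 : (b:ℝ) ^ ((h + ε) * m i) = (b:ℝ) ^ (ε * m i) * (b:ℝ) ^ (h * m i) := by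
        rw [← Real.rpow_add hb0]
        congr 1
        ring
      rw [e1]
      apply mul_le_mul_of_nonneg_right _ (Real.rpow_nonneg hb0.le _)
      exact hM0b.trans (hpow i)) (by
      intro i s hs
      exact return_time α hκ0 hc hM1 hαM hτ.le hdio hb (m i) (k i) (hkκ i) p s hs)
  set Λ : ℝ := (n:ℝ) + 1 + ε with hΛ
  have hΛ0 : 0 < Λ := by positivity
  set β : ℝ := 2 * ε + (h + ε) * Λ * (1 + 1 / n) with hβ
  have hβ0 : 0 ≤ β := by positivity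
  have hsum : ∀ i, ∑ j ∈ Finset.range (i + 1), (m j : ℝ) ≤ Λ * m i := lev_sum hn hε hM0e
  rcases le_or_gt (((n:ℝ) + 1) - β * Λ) 0 with hneg | hpos
  · rw [ENNReal.ofReal_of_nonpos hneg]
    exact zero_le
  have hd : ((n + 1 : ℕ) : ℝ) = (n:ℝ) + 1 := by push_cast; rfl
  have hfin := cantor_dim hK hb v0 Z hZne m k hmk hk1 hZ0 β Λ hβ0 (by rw [hd]; exact hpos) ?_ hsum
  · rw [hd] at hfin
    exact hfin
  · intro i
    rw [hd]
    have h1 := hcount i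
    have h2 : ∏ j ∈ Finset.range (i + 2), ((b:ℝ) ^ ((h + ε) * m j))⁻¹ =
        (b:ℝ) ^ (-((h + ε) * ∑ j ∈ Finset.range (i + 2), (m j : ℝ))) := by
      rw [Finset.mul_sum, ← Finset.sum_neg_distrib, Real.rpow_sum_of_pos hb0]
      apply Finset.prod_congr rfl
      intro j _
      rw [Real.rpow_neg hb0.le]
    have h3 : ∑ j ∈ Finset.range (i + 2), (m j : ℝ) ≤ Λ * ((1 + 1 / n) * m i) := by
      refine (hsum (i + 1)).trans ?_
      apply mul_le_mul_of_nonneg_left _ hΛ0.le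
      rw [hmk i]
      push_cast
      have := hkm i
      have e1 : (1 + 1 / (n:ℝ)) * m i = m i + m i / n := by ring
      linarith
    have h4 : (((b:ℝ) ^ k i)⁻¹) ^ (1 + κ⁻¹) = (b:ℝ) ^ (-(((n:ℝ) + 1 - ε) * k i)) := by
      rw [← Real.rpow_natCast, ← Real.rpow_neg hb0.le, ← Real.rpow_mul hb0.le, hκi]
      congr 1
      ring
    have h5 : (b:ℝ) ^ (-(ε * m i)) ≤ τ / C := by
      rw [Real.rpow_neg hb0.le]
      rw [inv_le_comm₀ (Real.rpow_pos_of_pos hb0 _) (by positivity), inv_div]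
      exact hM0c.trans (hpow i)
    have hcardnn : (0:ℝ) ≤ ((W (n + 1) b (k i) (Z i) (Z (i + 1))).card : ℝ) := Nat.cast_nonneg _
    rw [h2, h4] at h1
    -- divide
    have hX : 0 < (b:ℝ) ^ (-(((n:ℝ) + 1 - ε) * k i)) := Real.rpow_pos_of_pos hb0 _
    have h6 : τ / C * (b:ℝ) ^ (-((h + ε) * ∑ j ∈ Finset.range (i + 2), (m j : ℝ))) *
        (b:ℝ) ^ (((n:ℝ) + 1 - ε) * k i) ≤ ((W (n + 1) b (k i) (Z i) (Z (i + 1))).card : ℝ) := by
      have e1 : (b:ℝ) ^ (((n:ℝ) + 1 - ε) * k i) = ((b:ℝ) ^ (-(((n:ℝ) + 1 - ε) * k i)))⁻¹ := by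
        rw [← Real.rpow_neg hb0.le, neg_neg]
      rw [e1, ← div_eq_mul_inv, div_le_iff₀ hX]
      calc τ / C * (b:ℝ) ^ (-((h + ε) * ∑ j ∈ Finset.range (i + 2), (m j : ℝ)))
          = (τ * (b:ℝ) ^ (-((h + ε) * ∑ j ∈ Finset.range (i + 2), (m j : ℝ)))) / C := by ring
        _ ≤ (((W (n + 1) b (k i) (Z i) (Z (i + 1))).card : ℝ) *
            (C * (b:ℝ) ^ (-(((n:ℝ) + 1 - ε) * k i)))) / C := div_le_div_of_nonneg_right h1 hC0.le
        _ = _ := by field_simp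
    refine le_trans ?_ h6
    calc (b:ℝ) ^ (((n:ℝ) + 1) * k i - β * m i)
        ≤ (b:ℝ) ^ (-(ε * m i) + -((h + ε) * ∑ j ∈ Finset.range (i + 2), (m j : ℝ)) +
          ((n:ℝ) + 1 - ε) * k i) := by
          apply Real.rpow_le_rpow_of_exponent_le hb1.le
          have e2 : (h + ε) * ∑ j ∈ Finset.range (i + 2), (m j : ℝ) ≤
              (h + ε) * (Λ * ((1 + 1 / n) * m i)) :=
            mul_le_mul_of_nonneg_left h3 (by positivity)
          have e3 : ε * (k i : ℝ) ≤ ε * m i := by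
            apply mul_le_mul_of_nonneg_left _ hε.le
            refine (hkm i).trans ?_
            exact div_le_self (Nat.cast_nonneg _) hn1
          have e4 : β * (m i : ℝ) = 2 * (ε * m i) + (h + ε) * (Λ * ((1 + 1 / n) * m i)) := by
            rw [hβ]
            ring
          rw [e4]
          linarith
      _ = (b:ℝ) ^ (-(ε * m i)) * (b:ℝ) ^ (-((h + ε) * ∑ j ∈ Finset.range (i + 2), (m j : ℝ))) *
          (b:ℝ) ^ (((n:ℝ) + 1 - ε) * k i) := by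
          rw [Real.rpow_add hb0, Real.rpow_add hb0]
      _ ≤ _ := by
          apply mul_le_mul_of_nonneg_right _ (Real.rpow_nonneg hb0.le _)
          apply mul_le_mul_of_nonneg_right h5 (Real.rpow_nonneg hb0.le _)

/-- **A closed set of low zoom complexity with a segment in one generic direction has large dimension.** -/
theorem main_one {n : ℕ} (hn : 0 < n) {b : ℕ} (hb : 2 ≤ b) {A h : ℝ} (hh : 0 ≤ h)
    {K : Set (Fin (n + 1) → ℝ)} (hK : IsClosed K) (hA : ZoomBound b A h K)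
    (α : Fin n → ℝ) (hα : ∀ κ : ℝ, 0 ≤ κ → 1 < n * κ → ∃ c : ℝ, 0 < c ∧ Dio α κ c)
    (p : Fin (n + 1) → ℝ) {τ : ℝ} (hτ : 0 < τ)
    (hseg : ∀ t ∈ Icc (0:ℝ) τ, (fun i => p i + t * dir α i) ∈ K) :
    ENNReal.ofReal (((n:ℝ) + 1) - h * ((n:ℝ) + 1) ^ 3 / n) ≤ dimH K := by
  have hn0 : (0:ℝ) < n := by exact_mod_cast hn
  set f : ℝ → ℝ := fun ε => ((n:ℝ) + 1) - (2 * ε + (h + ε) * ((n:ℝ) + 1 + ε) * (1 + 1 / n)) *
      ((n:ℝ) + 1 + ε) with hf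
  have hcont : Continuous f := by
    rw [hf]
    fun_prop
  have hf0 : f 0 = ((n:ℝ) + 1) - h * ((n:ℝ) + 1) ^ 3 / n := by
    rw [hf]
    field_simp
    ring
  have hlim : Tendsto (fun ε => ENNReal.ofReal (f ε)) (𝓝[>] 0)
      (𝓝 (ENNReal.ofReal (((n:ℝ) + 1) - h * ((n:ℝ) + 1) ^ 3 / n))) := by
    rw [← hf0]
    exact (ENNReal.continuous_ofReal.comp hcont).continuousAt.mono_left nhdsWithin_le_nhds
  refine le_of_tendsto hlim ?_
  filter_upwards [Ioo_mem_nhdsGT (show (0:ℝ) < 1 by norm_num)] with ε hε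
  exact main_eps hn hb hh hK hA α hα p hτ hseg hε.1 hε.2

/-- almost every direction is generic -/
theorem ae_generic {n : ℕ} (hn : 0 < n) :
    ∀ᵐ α : Fin n → ℝ, ∀ κ : ℝ, 0 ≤ κ → 1 < n * κ → ∃ c : ℝ, 0 < c ∧ Dio α κ c := by
  have hn0 : (0:ℝ) < n := by exact_mod_cast hn
  have h1 : ∀ᵐ α : Fin n → ℝ, ∀ q : {q : ℚ // 0 ≤ (q:ℝ) ∧ 1 < n * (q:ℝ)}, ∃ c : ℝ, 0 < c ∧ Dio α (q.1:ℝ) c :=
    ae_all_iff.2 fun q => ae_dio hn q.2.1 q.2.2
  filter_upwards [h1] with α hα κ hκ0 hκ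
  have h2 : (n:ℝ)⁻¹ < κ := by
    rw [inv_lt_iff_one_lt_mul₀ hn0]
    linarith
  obtain ⟨q, hq1, hq2⟩ := exists_rat_btwn h2
  have hq0 : (0:ℝ) ≤ q := (inv_pos.2 hn0).le.trans hq1.le
  have hqn : 1 < n * (q:ℝ) := by
    rw [inv_lt_iff_one_lt_mul₀ hn0] at hq1
    linarith
  obtain ⟨c, hc, hD⟩ := hα ⟨q, hq0, hqn⟩
  refine ⟨c, hc, ?_⟩
  intro N hN z
  obtain ⟨j, hj⟩ := hD N hN z
  refine ⟨j, le_trans ?_ hj⟩
  apply mul_le_mul_of_nonneg_left _ hc.le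
  have hN1 : 1 ≤ |(N:ℝ)| := by
    exact_mod_cast Int.one_le_abs hN
  apply Real.rpow_le_rpow_of_exponent_le hN1
  simp only
  linarith

end Pool.Agent.Q85.KZ
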